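import Mathlib
import Pool.Graph.R_seed8.H785R2.ABC.A12
import Pool.Graph.R_seed8.H785R2.ABC.A345

/-!
# Representations of one integer as a sum of two integers of small radical: the upper bound
-/

set_option autoImplicit false

namespace Pool.Agent.H584.Maz

open Finset
open Pool.Agent.H785R2.ABC (rad StmtA1 StmtA2 StmtA3 StmtA4 stmtA1 stmtA2 stmtA3_of stmtA4_of)

/-- the primes whose square divides `n` -/
def sp (n : ℕ) : Finset ℕ := n.primeFactors.filter fun p => p ^ 2 ∣ n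

/-- the squarefull part of `n` -/
def sq (n : ℕ) : ℕ := ∏ p ∈ sp n, p ^ n.factorization p

lemma sp_sub (n : ℕ) : sp n ⊆ n.primeFactors := filter_subset _ _

lemma sp_prime {n p : ℕ} (h : p ∈ sp n) : p.Prime := Nat.prime_of_mem_primeFactors (sp_sub n h)

lemma sp_fac {n p : ℕ} (hn : n ≠ 0) (h : p ∈ sp n) : 2 ≤ n.factorization p := by
  have h1 := sp_prime h
  exact (h1.pow_dvd_iff_le_factorization hn).1 (mem_filter.1 h).2

lemma prod_fac {n : ℕ} (hn : n ≠ 0) : ∏ p ∈ n.primeFactors, p ^ n.factorization p = n := by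
  have := Nat.prod_factorization_pow_eq_self hn
  rwa [Finsupp.prod, Nat.support_factorization] at this

lemma sq_pos (n : ℕ) : 0 < sq n := prod_pos fun _ hp => pow_pos (sp_prime hp).pos _

lemma sq_dvd {n : ℕ} (hn : n ≠ 0) : sq n ∣ n := by
  conv_rhs => rw [← prod_fac hn]
  exact prod_dvd_prod_of_subset _ _ _ (sp_sub n)

lemma pf_sq {n : ℕ} (hn : n ≠ 0) : (sq n).primeFactors = sp n := by
  ext p
  rw [Nat.mem_primeFactors]
  constructor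
  · rintro ⟨hp, hd, _⟩
    obtain ⟨q, hq, hpq⟩ := (Prime.dvd_finsetProd_iff hp.prime _).1 hd
    have h1 := (Nat.prime_dvd_prime_iff_eq hp (sp_prime hq)).1 (hp.dvd_of_dvd_pow hpq)
    rwa [h1]
  · intro h
    have h2 := sp_fac hn h
    exact ⟨sp_prime h, (dvd_pow_self p (by omega)).trans (dvd_prod_of_mem _ h), (sq_pos n).ne'⟩

lemma rad_sq {n : ℕ} (hn : n ≠ 0) : rad (sq n) = ∏ p ∈ sp n, p := by
  unfold rad
  rw [pf_sq hn]

lemma mul_rad_sq {n : ℕ} (hn : n ≠ 0) : n * rad (sq n) = sq n * rad n := by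
  have h1 : ∏ p ∈ n.primeFactors.filter (fun p => ¬ p ^ 2 ∣ n), p ^ n.factorization p =
      ∏ p ∈ n.primeFactors.filter (fun p => ¬ p ^ 2 ∣ n), p := by
    refine prod_congr rfl fun p hp => ?_
    rw [mem_filter] at hp
    have hpp := Nat.prime_of_mem_primeFactors hp.1
    have h2 : ¬ 2 ≤ n.factorization p := fun h => hp.2 ((hpp.pow_dvd_iff_le_factorization hn).2 h)
    have h3 : 1 ≤ n.factorization p :=
      (hpp.dvd_iff_one_le_factorization hn).1 (Nat.dvd_of_mem_primeFactors hp.1)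
    have h4 : n.factorization p = 1 := by omega
    rw [h4, pow_one]
  have h2 : sq n * ∏ p ∈ n.primeFactors.filter (fun p => ¬ p ^ 2 ∣ n), p = n := by
    conv_rhs => rw [← prod_fac hn, ← prod_filter_mul_prod_filter_not _ (fun p => p ^ 2 ∣ n), h1]
    rfl
  have h3 : (∏ p ∈ sp n, p) * ∏ p ∈ n.primeFactors.filter (fun p => ¬ p ^ 2 ∣ n), p = rad n := by
    unfold rad sp
    exact prod_filter_mul_prod_filter_not _ _ _
  rw [rad_sq hn]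
  calc n * ∏ p ∈ sp n, p
      = (sq n * ∏ p ∈ n.primeFactors.filter (fun p => ¬ p ^ 2 ∣ n), p) * ∏ p ∈ sp n, p := by rw [h2]
    _ = sq n * ((∏ p ∈ sp n, p) * ∏ p ∈ n.primeFactors.filter (fun p => ¬ p ^ 2 ∣ n), p) := by ring
    _ = sq n * rad n := by rw [h3]

lemma rad_sq_sq_dvd {n : ℕ} (hn : n ≠ 0) : rad (sq n) ^ 2 ∣ n := by
  rw [rad_sq hn, ← prod_pow]
  refine dvd_trans ?_ (sq_dvd hn)
  exact prod_dvd_prod_of_dvd _ _ fun p hp => pow_dvd_pow p (sp_fac hn hp)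

lemma rad_pos (n : ℕ) : 0 < rad n :=
  prod_pos fun _ hp => (Nat.prime_of_mem_primeFactors hp).pos

/-- the number of the integers in a residue class -/
lemma card_class {M L : ℕ} (F : Finset ℕ) (h1 : ∀ a ∈ F, a ≤ L)
    (h2 : ∀ a ∈ F, ∀ a' ∈ F, a ≡ a' [MOD M]) : (F.card : ℝ) ≤ 1 + (L : ℝ) / M := by
  have hinj : Set.InjOn (fun a => a / M) (F : Set ℕ) := by
    intro a ha a' ha' heq
    have h3 : a % M = a' % M := h2 a ha a' ha'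
    have h4 : a / M = a' / M := heq
    rw [← Nat.div_add_mod a M, ← Nat.div_add_mod a' M, h3, h4]
  have h3 : (F.image fun a => a / M) ⊆ range (L / M + 1) := by
    intro x hx
    rw [mem_image] at hx
    obtain ⟨a, ha, rfl⟩ := hx
    rw [mem_range]
    exact Nat.lt_succ_of_le (Nat.div_le_div_right (h1 a ha))
  have h4 : F.card ≤ L / M + 1 := by
    rw [← card_image_of_injOn hinj]
    exact (card_le_card h3).trans (card_range _).le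
  have h5 : ((L / M : ℕ) : ℝ) ≤ (L : ℝ) / M := Nat.cast_div_le
  have h6 : (F.card : ℝ) ≤ ((L / M : ℕ) : ℝ) + 1 := by exact_mod_cast h4
  linarith

/-- finite sets of pairs of coprime integers `a`, `b` of small radical on a line `a ± b = κ`, the
larger of which is between `X / 2` and `X` -/
def Line (σ κ : ℤ) (X : ℕ) (R₁ R₂ : ℝ) (F : Finset (ℕ × ℕ)) : Prop :=
  ∀ t ∈ F, 0 < t.1 ∧ 0 < t.2 ∧ Nat.Coprime t.1 t.2 ∧ (t.1 : ℤ) + σ * t.2 = κ ∧ t.1 ≤ X ∧ t.2 ≤ X ∧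
    (X ≤ 2 * t.1 ∨ X ≤ 2 * t.2) ∧ (rad t.1 : ℝ) ≤ R₁ ∧ (rad t.2 : ℝ) ≤ R₂

lemma line_fst {σ κ : ℤ} {X : ℕ} {R₁ R₂ : ℝ} (hσ : σ = 1 ∨ σ = -1) {F : Finset (ℕ × ℕ)}
    (hF : Line σ κ X R₁ R₂ F) : Set.InjOn (fun t : ℕ × ℕ => t.1) (F : Set (ℕ × ℕ)) := by
  intro t ht t' ht' h
  have e1 := (hF t ht).2.2.2.1
  have e2 := (hF t' ht').2.2.2.1
  have h' : t.1 = t'.1 := h
  refine Prod.ext h' ?_
  rcases hσ with h0 | h0 <;> rw [h0] at e1 e2 <;> omega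

lemma line_snd {σ κ : ℤ} {X : ℕ} {R₁ R₂ : ℝ} {F : Finset (ℕ × ℕ)}
    (hF : Line σ κ X R₁ R₂ F) : Set.InjOn (fun t : ℕ × ℕ => t.2) (F : Set (ℕ × ℕ)) := by
  intro t ht t' ht' h
  have e1 := (hF t ht).2.2.2.1
  have e2 := (hF t' ht').2.2.2.1
  have h' : t.2 = t'.2 := h
  refine Prod.ext ?_ h'
  rw [h'] at e1
  have : (t.1 : ℤ) = t'.1 := by linarith
  exact_mod_cast this

lemma fiber_aux {σ κ : ℤ} {X q₁ q₂ : ℕ} {R₁ R₂ : ℝ} (hσ : σ = 1 ∨ σ = -1) {F : Finset (ℕ × ℕ)}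
    (hF : Line σ κ X R₁ R₂ F)
    (h1 : ∀ t ∈ F, sq t.1 = q₁) (h2 : ∀ t ∈ F, sq t.2 = q₂) {t t' : ℕ × ℕ} (ht : t ∈ F)
    (ht' : t' ∈ F) : t.1 ≡ t'.1 [MOD q₁ * q₂] ∧ t.2 ≡ t'.2 [MOD q₁ * q₂] := by
  obtain ⟨e11, e12, e13, e14, _⟩ := hF t ht
  obtain ⟨e21, e22, e23, e24, _⟩ := hF t' ht'
  have d1 : q₁ ∣ t.1 := by rw [← h1 t ht]; exact sq_dvd (by omega)
  have d2 : q₁ ∣ t'.1 := by rw [← h1 t' ht']; exact sq_dvd (by omega)
  have d3 : q₂ ∣ t.2 := by rw [← h2 t ht]; exact sq_dvd (by omega)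
  have d4 : q₂ ∣ t'.2 := by rw [← h2 t' ht']; exact sq_dvd (by omega)
  have hcop : Nat.Coprime q₁ q₂ :=
    Nat.Coprime.coprime_dvd_left d1 (Nat.Coprime.coprime_dvd_right d3 e13)
  have z1 : (q₁ : ℤ) ∣ (t'.1 : ℤ) - t.1 :=
    dvd_sub (Int.natCast_dvd_natCast.2 d2) (Int.natCast_dvd_natCast.2 d1)
  have z2 : (q₂ : ℤ) ∣ (t'.2 : ℤ) - t.2 :=
    dvd_sub (Int.natCast_dvd_natCast.2 d4) (Int.natCast_dvd_natCast.2 d3)
  have z3 : (t'.1 : ℤ) - t.1 = (-σ) * ((t'.2 : ℤ) - t.2) := by linear_combination e24 - e14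
  have z4 : (t'.2 : ℤ) - t.2 = (-σ) * ((t'.1 : ℤ) - t.1) := by
    rcases hσ with h0 | h0 <;> rw [h0] at e14 e24 ⊢ <;> linarith
  have z5 : ((q₁ * q₂ : ℕ) : ℤ) ∣ (t'.1 : ℤ) - t.1 := by
    rw [Nat.cast_mul]
    refine IsCoprime.mul_dvd (Nat.isCoprime_iff_coprime.2 hcop) z1 ?_
    rw [z3]
    exact z2.mul_left _
  refine ⟨Nat.modEq_iff_dvd.2 z5, Nat.modEq_iff_dvd.2 ?_⟩
  rw [z4]
  exact z5.mul_left _

/-- the pairs with given squarefull parts -/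
lemma fiber {σ κ : ℤ} {X q₁ q₂ : ℕ} {R₁ R₂ : ℝ} (hσ : σ = 1 ∨ σ = -1) (hX : 0 < X) (hR₁ : 0 ≤ R₁)
    (hR₂ : 0 ≤ R₂) (hq₁ : 0 < q₁) (hq₂ : 0 < q₂) {F : Finset (ℕ × ℕ)} (hF : Line σ κ X R₁ R₂ F)
    (h1 : ∀ t ∈ F, sq t.1 = q₁) (h2 : ∀ t ∈ F, sq t.2 = q₂) :
    (F.card : ℝ) ≤ 1 + 2 * (R₁ * R₂ / X) * ((1 / (rad q₁ : ℝ)) * (1 / (rad q₂ : ℝ))) := by
  have hXR : (0 : ℝ) < X := by exact_mod_cast hX
  have hq₁R : (0 : ℝ) < q₁ := by exact_mod_cast hq₁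
  have hq₂R : (0 : ℝ) < q₂ := by exact_mod_cast hq₂
  have hr₁ : (0 : ℝ) < rad q₁ := by exact_mod_cast rad_pos q₁
  have hr₂ : (0 : ℝ) < rad q₂ := by exact_mod_cast rad_pos q₂
  rcases F.eq_empty_or_nonempty with h0 | ⟨t₀, ht₀⟩
  · rw [h0]
    simp only [card_empty, Nat.cast_zero]
    positivity
  -- the sizes of the two members
  have hsize : ∀ t ∈ F, (t.1 : ℝ) ≤ q₁ * R₁ / rad q₁ ∧ (t.2 : ℝ) ≤ q₂ * R₂ / rad q₂ := by
    intro t ht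
    obtain ⟨e1, e2, _, _, _, _, _, e8, e9⟩ := hF t ht
    constructor
    · rw [le_div_iff₀ hr₁]
      have h3 := mul_rad_sq (n := t.1) (by omega)
      rw [h1 t ht] at h3
      have h4 : (t.1 : ℝ) * rad q₁ = q₁ * rad t.1 := by exact_mod_cast h3
      rw [h4]
      gcongr
    · rw [le_div_iff₀ hr₂]
      have h3 := mul_rad_sq (n := t.2) (by omega)
      rw [h2 t ht] at h3
      have h4 : (t.2 : ℝ) * rad q₂ = q₂ * rad t.2 := by exact_mod_cast h3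
      rw [h4]
      gcongr
  rcases (hF t₀ ht₀).2.2.2.2.2.2.1 with h6 | h6
  · have h6' : (X : ℝ) ≤ 2 * (q₁ * R₁ / rad q₁) := by
      have h7 : (X : ℝ) ≤ 2 * t₀.1 := by exact_mod_cast h6
      linarith [(hsize t₀ ht₀).1]
    have h7 := card_class (M := q₁ * q₂) (L := ⌊q₂ * R₂ / rad q₂⌋₊) (F.image fun t => t.2)
      (by
        intro b hb
        obtain ⟨t, ht, rfl⟩ := mem_image.1 hb
        exact Nat.le_floor (hsize t ht).2)
      (by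
        intro b hb b' hb'
        obtain ⟨t, ht, rfl⟩ := mem_image.1 hb
        obtain ⟨t', ht', rfl⟩ := mem_image.1 hb'
        exact (fiber_aux hσ hF h1 h2 ht ht').2)
    rw [card_image_of_injOn (line_snd hF)] at h7
    have h8 : ((⌊q₂ * R₂ / rad q₂⌋₊ : ℕ) : ℝ) ≤ q₂ * R₂ / rad q₂ := Nat.floor_le (by positivity)
    have h9 : ((⌊q₂ * R₂ / rad q₂⌋₊ : ℕ) : ℝ) / ((q₁ * q₂ : ℕ) : ℝ) ≤
        (q₂ * R₂ / rad q₂) / (q₁ * q₂) := by
      rw [Nat.cast_mul]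
      gcongr
    have h10 : (q₂ * R₂ / rad q₂) / (q₁ * q₂) ≤
        2 * (R₁ * R₂ / X) * ((1 / (rad q₁ : ℝ)) * (1 / (rad q₂ : ℝ))) := by
      have h11 : (q₂ * R₂ / rad q₂) / (q₁ * q₂) = R₂ / (rad q₂ * q₁) := by
        field_simp
      rw [h11, div_le_iff₀ (by positivity)]
      have h12 : 2 * (R₁ * R₂ / X) * ((1 / (rad q₁ : ℝ)) * (1 / (rad q₂ : ℝ))) * (rad q₂ * q₁) =
          R₂ * (2 * (q₁ * R₁ / rad q₁) / X) := by
        field_simp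
      rw [h12]
      have h13 : 1 ≤ 2 * (q₁ * R₁ / rad q₁) / X := by
        rw [le_div_iff₀ (by positivity)]
        linarith
      calc R₂ = R₂ * 1 := by ring
        _ ≤ _ := by gcongr
    linarith
  · have h6' : (X : ℝ) ≤ 2 * (q₂ * R₂ / rad q₂) := by
      have h7 : (X : ℝ) ≤ 2 * t₀.2 := by exact_mod_cast h6
      linarith [(hsize t₀ ht₀).2]
    have h7 := card_class (M := q₁ * q₂) (L := ⌊q₁ * R₁ / rad q₁⌋₊) (F.image fun t => t.1)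
      (by
        intro b hb
        obtain ⟨t, ht, rfl⟩ := mem_image.1 hb
        exact Nat.le_floor (hsize t ht).1)
      (by
        intro b hb b' hb'
        obtain ⟨t, ht, rfl⟩ := mem_image.1 hb
        obtain ⟨t', ht', rfl⟩ := mem_image.1 hb'
        exact (fiber_aux hσ hF h1 h2 ht ht').1)
    rw [card_image_of_injOn (line_fst hσ hF)] at h7
    have h8 : ((⌊q₁ * R₁ / rad q₁⌋₊ : ℕ) : ℝ) ≤ q₁ * R₁ / rad q₁ := Nat.floor_le (by positivity)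
    have h9 : ((⌊q₁ * R₁ / rad q₁⌋₊ : ℕ) : ℝ) / ((q₁ * q₂ : ℕ) : ℝ) ≤
        (q₁ * R₁ / rad q₁) / (q₁ * q₂) := by
      rw [Nat.cast_mul]
      gcongr
    have h10 : (q₁ * R₁ / rad q₁) / (q₁ * q₂) ≤
        2 * (R₁ * R₂ / X) * ((1 / (rad q₁ : ℝ)) * (1 / (rad q₂ : ℝ))) := by
      have h11 : (q₁ * R₁ / rad q₁) / (q₁ * q₂) = R₁ / (rad q₁ * q₂) := by
        field_simp
      rw [h11, div_le_iff₀ (by positivity)]
      have h12 : 2 * (R₁ * R₂ / X) * ((1 / (rad q₁ : ℝ)) * (1 / (rad q₂ : ℝ))) * (rad q₁ * q₂) =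
          R₁ * (2 * (q₂ * R₂ / rad q₂) / X) := by
        field_simp
      rw [h12]
      have h13 : 1 ≤ 2 * (q₂ * R₂ / rad q₂) / X := by
        rw [le_div_iff₀ (by positivity)]
        linarith
      calc R₁ = R₁ * 1 := by ring
        _ ≤ _ := by gcongr
    linarith

/-- the integers up to `c` with a large repeated part -/
lemma card_large (c : ℕ) {Z : ℝ} (hZ : 1 ≤ Z) :
    (((Icc 1 c).filter fun a => Z < (rad (sq a) : ℝ)).card : ℝ) ≤ 2 * (c : ℝ) / Z := by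
  classical
  set m : ℕ := ⌊Z⌋₊ with hm
  have hm1 : 1 ≤ m := Nat.le_floor (by exact_mod_cast hZ)
  have hmR : (1 : ℝ) ≤ m := by exact_mod_cast hm1
  have hsub : ((Icc 1 c).filter fun a => Z < (rad (sq a) : ℝ)) ⊆
      (Ioc m c).biUnion fun u => (Icc 1 c).filter fun a => u ^ 2 ∣ a := by
    intro a ha
    rw [mem_filter, mem_Icc] at ha
    obtain ⟨⟨h1, h2⟩, h3⟩ := ha
    have h4 := rad_sq_sq_dvd (n := a) (by omega)
    have h5 : rad (sq a) ≤ a := by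
      have h6 : rad (sq a) ≤ rad (sq a) ^ 2 := Nat.le_self_pow (by norm_num) _
      exact h6.trans (Nat.le_of_dvd h1 h4)
    have h7 : m < rad (sq a) := by
      have h8 : (m : ℝ) ≤ Z := Nat.floor_le (by linarith)
      have h9 : (m : ℝ) < rad (sq a) := h8.trans_lt h3
      exact_mod_cast h9
    rw [mem_biUnion]
    exact ⟨rad (sq a), mem_Ioc.2 ⟨h7, h5.trans h2⟩, mem_filter.2 ⟨mem_Icc.2 ⟨h1, h2⟩, h4⟩⟩
  have h1 : ∀ u ∈ Ioc m c, (((Icc 1 c).filter fun a => u ^ 2 ∣ a).card : ℝ) ≤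
      (c : ℝ) * ((u : ℝ) ^ 2)⁻¹ := by
    intro u _
    have h2 : ((Icc 1 c).filter fun a => u ^ 2 ∣ a).card = c / u ^ 2 := by
      have := Nat.Ioc_filter_dvd_card_eq_div c (u ^ 2)
      rw [← this]
      congr 1
    rw [h2]
    refine Nat.cast_div_le.trans ?_
    rw [Nat.cast_pow, div_eq_mul_inv]
  have h2 : (((Icc 1 c).filter fun a => Z < (rad (sq a) : ℝ)).card : ℝ) ≤
      ∑ u ∈ Ioc m c, (c : ℝ) * ((u : ℝ) ^ 2)⁻¹ := by
    calc (((Icc 1 c).filter fun a => Z < (rad (sq a) : ℝ)).card : ℝ)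
        ≤ (((Ioc m c).biUnion fun u => (Icc 1 c).filter fun a => u ^ 2 ∣ a).card : ℝ) := by
          exact_mod_cast card_le_card hsub
      _ ≤ ((∑ u ∈ Ioc m c, ((Icc 1 c).filter fun a => u ^ 2 ∣ a).card : ℕ) : ℝ) := by
          exact_mod_cast card_biUnion_le
      _ = ∑ u ∈ Ioc m c, (((Icc 1 c).filter fun a => u ^ 2 ∣ a).card : ℝ) := by push_cast; rfl
      _ ≤ _ := sum_le_sum h1
  have h3 : ∑ u ∈ Ioc m c, ((u : ℝ) ^ 2)⁻¹ ≤ (m : ℝ)⁻¹ := by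
    rcases le_or_gt m c with h4 | h4
    · have := sum_Ioc_inv_sq_le_sub (α := ℝ) (k := m) (n := c) (by omega) h4
      have h5 : (0 : ℝ) ≤ (c : ℝ)⁻¹ := by positivity
      linarith
    · rw [Ioc_eq_empty (by omega)]
      simp
  rw [← mul_sum] at h2
  have h4 : (m : ℝ)⁻¹ ≤ 2 / Z := by
    rw [inv_le_comm₀ (by positivity) (by positivity), inv_div]
    have h5 : Z < m + 1 := Nat.lt_floor_add_one Z
    linarith
  calc _ ≤ (c : ℝ) * ∑ u ∈ Ioc m c, ((u : ℝ) ^ 2)⁻¹ := h2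
    _ ≤ (c : ℝ) * (2 / Z) := by gcongr; exact h3.trans h4
    _ = 2 * (c : ℝ) / Z := by ring

/-- **The upper bound.** -/
theorem upper (ε : ℝ) (hε : 0 < ε) : ∃ K : ℝ, 0 < K ∧ ∀ X : ℕ, 1 ≤ X → ∀ (σ κ : ℤ) (R₁ R₂ : ℝ)
    (F : Finset (ℕ × ℕ)), (σ = 1 ∨ σ = -1) → 0 ≤ R₁ → 0 ≤ R₂ → Line σ κ X R₁ R₂ F →
      (F.card : ℝ) ≤ K * (X : ℝ) ^ ε * (R₁ * R₂ / X + (X : ℝ) ^ (2 / 3 : ℝ)) := by
  classical
  obtain ⟨D, hD, hA3⟩ := stmtA3_of stmtA2 (ε / 2) (by positivity)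
  obtain ⟨E, hE, hA4⟩ := stmtA4_of (stmtA3_of stmtA2) (ε / 2) (by positivity)
  refine ⟨4 + E ^ 2 + 2 * D ^ 2, by positivity, fun c hc σ κ R₁ R₂ F hσ hR₁ hR₂ hF => ?_⟩
  have hcR : (1 : ℝ) ≤ c := by exact_mod_cast hc
  have hc0 : (0 : ℝ) < c := by linarith
  set Z : ℝ := (c : ℝ) ^ (1 / 3 : ℝ) with hZ
  have hZ1 : 1 ≤ Z := Real.one_le_rpow hcR (by norm_num)
  set P : Finset ℕ := (Icc 1 c).filter fun d => (rad d : ℝ) ≤ Z with hP
  set S₁ : Finset ℕ := (Icc 1 c).filter fun a => Z < (rad (sq a) : ℝ) with hS₁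
  set F₁ : Finset (ℕ × ℕ) := F.filter fun t => Z < (rad (sq t.1) : ℝ) with hF₁
  set F₂ : Finset (ℕ × ℕ) := F.filter fun t => Z < (rad (sq t.2) : ℝ) with hF₂
  set F₃ : Finset (ℕ × ℕ) := F.filter fun t =>
    (rad (sq t.1) : ℝ) ≤ Z ∧ (rad (sq t.2) : ℝ) ≤ Z with hF₃
  have hcover : F ⊆ F₁ ∪ F₂ ∪ F₃ := by
    intro t ht
    rw [mem_union, mem_union]
    by_cases h1 : (rad (sq t.1) : ℝ) ≤ Z
    · by_cases h2 : (rad (sq t.2) : ℝ) ≤ Z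
      · exact Or.inr (mem_filter.2 ⟨ht, h1, h2⟩)
      · exact Or.inl (Or.inr (mem_filter.2 ⟨ht, lt_of_not_ge h2⟩))
    · exact Or.inl (Or.inl (mem_filter.2 ⟨ht, lt_of_not_ge h1⟩))
  have hb1 : F₁.card ≤ S₁.card := by
    refine card_le_card_of_injOn (fun t => t.1) ?_ ?_
    · intro t ht
      obtain ⟨h1, h2⟩ := mem_filter.1 ht
      obtain ⟨e1, _, _, _, e5, _⟩ := hF t h1
      exact mem_filter.2 ⟨mem_Icc.2 ⟨e1, e5⟩, h2⟩
    · exact (line_fst hσ hF).mono (coe_subset.2 (filter_subset _ _))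
  have hb2 : F₂.card ≤ S₁.card := by
    refine card_le_card_of_injOn (fun t => t.2) ?_ ?_
    · intro t ht
      obtain ⟨h1, h2⟩ := mem_filter.1 ht
      obtain ⟨_, e2, _, _, _, e6, _⟩ := hF t h1
      exact mem_filter.2 ⟨mem_Icc.2 ⟨e2, e6⟩, h2⟩
    · exact (line_snd hF).mono (coe_subset.2 (filter_subset _ _))
  have hc1 : (F.card : ℝ) ≤ (S₁.card : ℝ) + S₁.card + F₃.card := by
    have h1 := card_le_card hcover
    have h2 := card_union_le (F₁ ∪ F₂) F₃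
    have h3 := card_union_le F₁ F₂
    have h5 : F.card ≤ S₁.card + S₁.card + F₃.card := by omega
    exact_mod_cast h5
  have hS₁c : (S₁.card : ℝ) ≤ 2 * (c : ℝ) ^ (2 / 3 : ℝ) := by
    have h1 := card_large c hZ1
    have h2 : (c : ℝ) / Z = (c : ℝ) ^ (2 / 3 : ℝ) := by
      rw [hZ]
      nth_rewrite 1 [← Real.rpow_one (c : ℝ)]
      rw [← Real.rpow_sub hc0]
      norm_num
    rw [← h2]
    calc (S₁.card : ℝ) ≤ 2 * (c : ℝ) / Z := h1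
      _ = 2 * ((c : ℝ) / Z) := by ring
  -- the fibres over the pairs of squarefull parts
  have hfib : (F₃.card : ℝ) ≤ ∑ q ∈ P ×ˢ P,
      (1 + 2 * (R₁ * R₂ / c) * ((1 / (rad q.1 : ℝ)) * (1 / (rad q.2 : ℝ)))) := by
    have hmaps : ∀ t ∈ F₃, (sq t.1, sq t.2) ∈ P ×ˢ P := by
      intro t ht
      obtain ⟨h1, h2, h3⟩ := mem_filter.1 ht
      obtain ⟨e1, e2, _, _, e5, e6, _⟩ := hF t h1
      have h4 : sq t.1 ≤ t.1 := Nat.le_of_dvd e1 (sq_dvd (by omega))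
      have h5 : sq t.2 ≤ t.2 := Nat.le_of_dvd e2 (sq_dvd (by omega))
      rw [mem_product]
      exact ⟨mem_filter.2 ⟨mem_Icc.2 ⟨sq_pos t.1, by omega⟩, h2⟩,
        mem_filter.2 ⟨mem_Icc.2 ⟨sq_pos t.2, by omega⟩, h3⟩⟩
    rw [card_eq_sum_card_fiberwise hmaps, Nat.cast_sum]
    refine sum_le_sum fun q hq => ?_
    rw [mem_product, hP, mem_filter, mem_filter, mem_Icc, mem_Icc] at hq
    refine fiber (σ := σ) (κ := κ) hσ (by omega) hR₁ hR₂ hq.1.1.1 hq.2.1.1 ?_ ?_ ?_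
    · intro t ht
      exact hF t (mem_filter.1 (mem_filter.1 ht).1).1
    · intro t ht
      exact congrArg Prod.fst (mem_filter.1 ht).2
    · intro t ht
      exact congrArg Prod.snd (mem_filter.1 ht).2
  have hPc : (P.card : ℝ) ≤ E * (c : ℝ) ^ (ε / 2) * Z := hA4 c hc Z (by linarith)
  have hPs : ∑ d ∈ P, (1 / (rad d : ℝ)) ≤ D * (c : ℝ) ^ (ε / 2) := by
    have h1 := hA3 c hc 1 le_rfl
    rw [Nat.cast_one, div_one] at h1
    refine le_trans ?_ h1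
    refine sum_le_sum_of_subset_of_nonneg ?_ fun d _ _ => by positivity
    intro d hd
    rw [hP, mem_filter] at hd
    exact mem_filter.2 ⟨hd.1, one_dvd _⟩
  have hsum : ∑ q ∈ P ×ˢ P,
      (1 + 2 * (R₁ * R₂ / c) * ((1 / (rad q.1 : ℝ)) * (1 / (rad q.2 : ℝ)))) =
      (P.card : ℝ) ^ 2 + 2 * (R₁ * R₂ / c) * (∑ d ∈ P, (1 / (rad d : ℝ))) ^ 2 := by
    have h1 : ∑ q ∈ P ×ˢ P, ((1 / (rad q.1 : ℝ)) * (1 / (rad q.2 : ℝ))) =
        (∑ d ∈ P, (1 / (rad d : ℝ))) ^ 2 := by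
      rw [pow_two, sum_mul_sum, sum_product]
    rw [sum_add_distrib, ← mul_sum, h1, sum_const, card_product, nsmul_eq_mul, mul_one,
      Nat.cast_mul, pow_two (P.card : ℝ)]
  rw [hsum] at hfib
  have hsqε : ((c : ℝ) ^ (ε / 2)) ^ 2 = (c : ℝ) ^ ε := by
    rw [← Real.rpow_natCast, ← Real.rpow_mul hc0.le]
    congr 1
    push_cast
    ring
  have hZ2 : Z ^ 2 = (c : ℝ) ^ (2 / 3 : ℝ) := by
    rw [hZ, ← Real.rpow_natCast, ← Real.rpow_mul hc0.le]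
    norm_num
  have hP2 : (P.card : ℝ) ^ 2 ≤ E ^ 2 * (c : ℝ) ^ ε * (c : ℝ) ^ (2 / 3 : ℝ) := by
    calc (P.card : ℝ) ^ 2 ≤ (E * (c : ℝ) ^ (ε / 2) * Z) ^ 2 := by gcongr
      _ = E ^ 2 * ((c : ℝ) ^ (ε / 2)) ^ 2 * Z ^ 2 := by ring
      _ = _ := by rw [hsqε, hZ2]
  have hP3 : (∑ d ∈ P, (1 / (rad d : ℝ))) ^ 2 ≤ D ^ 2 * (c : ℝ) ^ ε := by
    calc (∑ d ∈ P, (1 / (rad d : ℝ))) ^ 2 ≤ (D * (c : ℝ) ^ (ε / 2)) ^ 2 := by
          gcongr
      _ = D ^ 2 * ((c : ℝ) ^ (ε / 2)) ^ 2 := by ring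
      _ = _ := by rw [hsqε]
  have hcε : 1 ≤ (c : ℝ) ^ ε := Real.one_le_rpow hcR hε.le
  have hRR : 0 ≤ R₁ * R₂ / c := by positivity
  have hc23 : 0 ≤ (c : ℝ) ^ (2 / 3 : ℝ) := by positivity
  calc (F.card : ℝ)
      ≤ 2 * (c : ℝ) ^ (2 / 3 : ℝ) + 2 * (c : ℝ) ^ (2 / 3 : ℝ) +
        (E ^ 2 * (c : ℝ) ^ ε * (c : ℝ) ^ (2 / 3 : ℝ) +
          2 * (R₁ * R₂ / c) * (D ^ 2 * (c : ℝ) ^ ε)) := by
        refine hc1.trans (add_le_add (add_le_add hS₁c hS₁c) (hfib.trans (add_le_add hP2 ?_)))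
        gcongr
    _ ≤ (4 + E ^ 2 + 2 * D ^ 2) * (c : ℝ) ^ ε * (R₁ * R₂ / c + (c : ℝ) ^ (2 / 3 : ℝ)) := by
        have h1 : 4 * (c : ℝ) ^ (2 / 3 : ℝ) ≤ 4 * ((c : ℝ) ^ ε * (c : ℝ) ^ (2 / 3 : ℝ)) := by
          nlinarith
        have h2 : 0 ≤ (4 + E ^ 2) * ((c : ℝ) ^ ε * (R₁ * R₂ / c)) := by positivity
        have h3 : 0 ≤ 2 * D ^ 2 * ((c : ℝ) ^ ε * (c : ℝ) ^ (2 / 3 : ℝ)) := by positivity
        nlinarith

end Pool.Agent.H584.Maz
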