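import Mathlib
import Pool.Agent.H584.Maz.Upper

/-!
# Representations of one integer as a sum of two integers of small radical: the lower bound
-/

set_option autoImplicit false

namespace Pool.Agent.H584.Maz

open Finset
open Pool.Agent.H785R2.ABC (rad StmtA1 StmtA2 StmtA3 StmtA4 stmtA1 stmtA2 stmtA3_of stmtA4_of)

/-- the number of the terms of an arithmetic progression in a residue class -/
lemma count_dvd {A v d : ℕ} (hd : 0 < d) (hv : Nat.Coprime v d) (T : ℕ) :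
    |(((range T).filter fun t => d ∣ A + v * t).card : ℝ) - (T : ℝ) / d| ≤ 1 := by
  obtain ⟨t₀, ht₀⟩ : ∃ t₀ : ℕ, d ∣ A + v * t₀ := by
    have : NeZero d := ⟨hd.ne'⟩
    set u : (ZMod d)ˣ := ZMod.unitOfCoprime v hv with hu
    refine ⟨(((u⁻¹ : (ZMod d)ˣ) : ZMod d) * (-(A : ZMod d))).val, ?_⟩
    rw [← ZMod.natCast_eq_zero_iff]
    push_cast
    rw [ZMod.natCast_zmod_val]
    have h1 : (v : ZMod d) = (u : ZMod d) := by rw [hu, ZMod.coe_unitOfCoprime]
    rw [h1, ← mul_assoc, Units.mul_inv, one_mul, add_neg_cancel]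
  have h1 : ((range T).filter fun t => d ∣ A + v * t) = (range T).filter fun t => t ≡ t₀ [MOD d] := by
    refine filter_congr fun t _ => ?_
    rw [← Nat.modEq_zero_iff_dvd]
    have ht₁ : A + v * t₀ ≡ 0 [MOD d] := Nat.modEq_zero_iff_dvd.2 ht₀
    constructor
    · intro h
      have h2 : v * t ≡ v * t₀ [MOD d] := Nat.ModEq.add_left_cancel' A (h.trans ht₁.symm)
      exact Nat.ModEq.cancel_left_of_coprime hv.symm h2
    · intro h
      exact ((h.mul_left v).add_left A).trans ht₁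
  have h2 : ((range T).filter fun t => t ≡ t₀ [MOD d]).card = T.count (· ≡ t₀ [MOD d]) :=
    (Nat.count_eq_card_filter_range _ _).symm
  have h3 := Nat.count_modEq_card T hd t₀
  have hdR : (0 : ℝ) < d := by exact_mod_cast hd
  have h4 : ((T / d : ℕ) : ℝ) ≤ (T : ℝ) / d := Nat.cast_div_le
  have h5 : (T : ℝ) / d < ((T / d : ℕ) : ℝ) + 1 := by
    rw [div_lt_iff₀ hdR]
    have h6 : T < (T / d + 1) * d := by
      have h7 := Nat.div_add_mod T d
      have h8 := Nat.mod_lt T hd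
      nlinarith
    exact_mod_cast h6
  rw [h1, h2, h3, abs_le]
  constructor
  · push_cast
    split_ifs <;> simp <;> linarith
  · push_cast
    split_ifs <;> simp <;> linarith

/-- the sieve of Legendre in an arithmetic progression -/
lemma sieve {A v T : ℕ} (S : Finset ℕ) (hS : ∀ p ∈ S, p.Prime ∧ ¬ p ∣ v) :
    (T : ℝ) * ∏ p ∈ S, (1 - 1 / (p : ℝ)) - 2 ^ S.card ≤
      (((range T).filter fun t => ∀ p ∈ S, ¬ p ∣ A + v * t).card : ℝ) := by
  classical
  have h1 : (((range T).filter fun t => ∀ p ∈ S, ¬ p ∣ A + v * t).card : ℝ) =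
      ∑ t ∈ range T, ∏ p ∈ S, (-(if p ∣ A + v * t then (1 : ℝ) else 0) + 1) := by
    rw [card_filter, Nat.cast_sum]
    refine sum_congr rfl fun t _ => ?_
    have h2 : ∀ p ∈ S, (-(if p ∣ A + v * t then (1 : ℝ) else 0) + 1) =
        if ¬ p ∣ A + v * t then (1 : ℝ) else 0 := by
      intro p _
      by_cases h : p ∣ A + v * t <;> simp [h]
    rw [prod_congr rfl h2, prod_boole]
    push_cast
    rfl
  have h2 : ∀ W ∈ S.powerset, ∀ t : ℕ,
      (∏ p ∈ W, (-(if p ∣ A + v * t then (1 : ℝ) else 0))) * ∏ p ∈ S \ W, (1 : ℝ) =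
        (-1) ^ W.card * (if (∏ p ∈ W, p) ∣ A + v * t then (1 : ℝ) else 0) := by
    intro W hW t
    rw [mem_powerset] at hW
    rw [prod_const_one, mul_one]
    have h3 : ∏ p ∈ W, (-(if p ∣ A + v * t then (1 : ℝ) else 0)) =
        ∏ p ∈ W, ((-1) * (if p ∣ A + v * t then (1 : ℝ) else 0)) :=
      prod_congr rfl fun p _ => by ring
    rw [h3, prod_mul_distrib, prod_const, prod_boole]
    have h4 : (∀ p ∈ W, p ∣ A + v * t) ↔ (∏ p ∈ W, p) ∣ A + v * t := by
      constructor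
      · intro h
        exact prod_primes_dvd _ (fun p hp => (hS p (hW hp)).1.prime) h
      · intro h p hp
        exact (dvd_prod_of_mem _ hp).trans h
    by_cases h5 : (∏ p ∈ W, p) ∣ A + v * t
    · rw [if_pos h5, if_pos (h4.2 h5)]
    · rw [if_neg h5, if_neg (fun h => h5 (h4.1 h))]
  have h3 : (((range T).filter fun t => ∀ p ∈ S, ¬ p ∣ A + v * t).card : ℝ) =
      ∑ W ∈ S.powerset, (-1) ^ W.card *
        (((range T).filter fun t => (∏ p ∈ W, p) ∣ A + v * t).card : ℝ) := by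
    rw [h1]
    have h4 : ∀ t ∈ range T, ∏ p ∈ S, (-(if p ∣ A + v * t then (1 : ℝ) else 0) + 1) =
        ∑ W ∈ S.powerset, (-1) ^ W.card * (if (∏ p ∈ W, p) ∣ A + v * t then (1 : ℝ) else 0) := by
      intro t _
      rw [prod_add]
      exact sum_congr rfl fun W hW => h2 W hW t
    rw [sum_congr rfl h4, sum_comm]
    refine sum_congr rfl fun W _ => ?_
    rw [← mul_sum, card_filter, Nat.cast_sum]
    congr 1
    refine sum_congr rfl fun t _ => ?_
    split_ifs <;> simp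
  have h4 : (T : ℝ) * ∏ p ∈ S, (1 - 1 / (p : ℝ)) =
      ∑ W ∈ S.powerset, (-1) ^ W.card * ((T : ℝ) / ((∏ p ∈ W, p : ℕ) : ℝ)) := by
    have h5 : ∏ p ∈ S, (1 - 1 / (p : ℝ)) = ∏ p ∈ S, (-(1 / (p : ℝ)) + 1) :=
      prod_congr rfl fun p _ => by ring
    rw [h5, prod_add, mul_sum]
    refine sum_congr rfl fun W _ => ?_
    have h6 : ∏ p ∈ W, (-(1 / (p : ℝ))) = ∏ p ∈ W, ((-1) * (1 / (p : ℝ))) :=
      prod_congr rfl fun p _ => by ring
    rw [h6, prod_const_one, mul_one, prod_mul_distrib, prod_const, prod_div_distrib, prod_const_one]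
    push_cast
    ring
  rw [h3, h4]
  have h5 : ∀ W ∈ S.powerset, (-1 : ℝ) ^ W.card * ((T : ℝ) / ((∏ p ∈ W, p : ℕ) : ℝ)) - 1 ≤
      (-1 : ℝ) ^ W.card * (((range T).filter fun t => (∏ p ∈ W, p) ∣ A + v * t).card : ℝ) := by
    intro W hW
    rw [mem_powerset] at hW
    have h6 : 0 < ∏ p ∈ W, p := prod_pos fun p hp => (hS p (hW hp)).1.pos
    have h7 : Nat.Coprime v (∏ p ∈ W, p) :=
      Nat.Coprime.prod_right fun p hp =>
        ((Nat.Prime.coprime_iff_not_dvd (hS p (hW hp)).1).2 (hS p (hW hp)).2).symm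
    have h8 := count_dvd (A := A) h6 h7 T
    rw [abs_le] at h8
    rcases neg_one_pow_eq_or ℝ W.card with h9 | h9 <;> rw [h9] <;> linarith [h8.1, h8.2]
  have h6 := sum_le_sum h5
  rw [sum_sub_distrib, sum_const, card_powerset, nsmul_eq_mul, mul_one] at h6
  push_cast at h6 ⊢
  exact h6

/-- many small primes -/
lemma small_primes (k : ℕ) : ∃ P : Finset ℕ, P.card = k ∧ ∀ p ∈ P, p.Prime ∧ p ≤ 2 ^ k := by
  classical
  have h : ∀ i : ℕ, ∃ p : ℕ, p.Prime ∧ 2 ^ i < p ∧ p ≤ 2 * 2 ^ i := fun i =>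
    Nat.exists_prime_lt_and_le_two_mul (2 ^ i) (by positivity)
  choose f hf1 hf2 hf3 using h
  have hmono : StrictMono f := strictMono_nat_of_lt_succ fun i => by
    have h1 := hf3 i
    have h2 := hf2 (i + 1)
    rw [pow_succ] at h2
    omega
  refine ⟨(range k).image f, ?_, ?_⟩
  · rw [card_image_of_injective _ hmono.injective, card_range]
  · intro p hp
    obtain ⟨i, hi, rfl⟩ := mem_image.1 hp
    rw [mem_range] at hi
    refine ⟨hf1 i, (hf3 i).trans ?_⟩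
    calc 2 * 2 ^ i = 2 ^ (i + 1) := by ring
      _ ≤ 2 ^ k := Nat.pow_le_pow_right (by norm_num) hi

/-- two small primes which do not divide `κ ≤ X` -/
lemma two_primes (δ : ℝ) (hδ : 0 < δ) : ∃ c₀ : ℕ, 1 ≤ c₀ ∧ ∀ c : ℕ, c₀ ≤ c → ∀ κ : ℕ, 1 ≤ κ →
    κ ≤ c → ∃ x y : ℕ, x.Prime ∧
    y.Prime ∧ x ≠ y ∧ ¬ x ∣ κ ∧ ¬ y ∣ κ ∧ (x : ℝ) ≤ (c : ℝ) ^ δ ∧ (y : ℝ) ≤ (c : ℝ) ^ δ := by
  classical
  obtain ⟨D, hD, h⟩ := stmtA1 2 (by norm_num) (δ / 4) (by positivity)
  have hl2 : 0 < Real.log 2 := Real.log_pos (by norm_num)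
  -- choose `c₀` such that `δ log c ≥ 2 (log D + 3 log 2)`
  obtain ⟨c₀, hc₀⟩ := exists_nat_gt (Real.exp (2 * (|Real.log D| + 3 * Real.log 2) / δ))
  have hc₀pos : 1 ≤ c₀ := by
    have : (0 : ℝ) < c₀ := (Real.exp_pos _).trans hc₀
    exact_mod_cast this
  refine ⟨c₀, hc₀pos, fun c hc κ hκ hκc => ?_⟩
  have hc1 : (1 : ℝ) ≤ c := by exact_mod_cast hc₀pos.trans hc
  have hc0 : (0 : ℝ) < c := by linarith
  have hκR : (1 : ℝ) ≤ κ := by exact_mod_cast hκ
  have hlog : 2 * (|Real.log D| + 3 * Real.log 2) ≤ δ * Real.log c := by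
    have h1 : Real.exp (2 * (|Real.log D| + 3 * Real.log 2) / δ) ≤ c :=
      hc₀.le.trans (by exact_mod_cast hc)
    rw [← Real.le_log_iff_exp_le hc0, div_le_iff₀ hδ] at h1
    linarith
  set k : ℕ := ⌊δ * Real.log c / Real.log 2⌋₊ with hk
  have hlogc : 0 ≤ Real.log c := Real.log_nonneg hc1
  have hk1 : (k : ℝ) ≤ δ * Real.log c / Real.log 2 := Nat.floor_le (by positivity)
  have hk2 : δ * Real.log c / Real.log 2 < k + 1 := Nat.lt_floor_add_one _
  rw [le_div_iff₀ hl2] at hk1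
  rw [div_lt_iff₀ hl2] at hk2
  obtain ⟨P, hPc, hP⟩ := small_primes k
  have hω : (κ.primeFactors.card : ℝ) * Real.log 2 ≤ |Real.log D| + δ / 4 * Real.log c := by
    have h1 := h κ hκ
    have h2 := Real.log_le_log (by positivity) h1
    rw [Real.log_pow, Real.log_mul hD.ne' (by positivity), Real.log_rpow (by linarith)] at h2
    have h3 : Real.log κ ≤ Real.log c := Real.log_le_log (by linarith) (by exact_mod_cast hκc)
    have h4 : δ / 4 * Real.log κ ≤ δ / 4 * Real.log c := by gcongr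
    linarith [le_abs_self (Real.log D)]
  have hcard : κ.primeFactors.card + 2 ≤ k := by
    have h1 : ((κ.primeFactors.card : ℝ) + 2) * Real.log 2 < (k + 1) * Real.log 2 := by
      nlinarith
    have h2 := lt_of_mul_lt_mul_right h1 hl2.le
    have h3 : κ.primeFactors.card + 2 < k + 1 := by exact_mod_cast h2
    omega
  have hdiff : 1 < (P \ κ.primeFactors).card := by
    have h1 := le_card_sdiff κ.primeFactors P
    omega
  obtain ⟨x, hx, y, hy, hxy⟩ := one_lt_card.1 hdiff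
  rw [mem_sdiff] at hx hy
  have hcne : κ ≠ 0 := by omega
  have hpow : ((2 : ℝ) ^ k) ≤ (c : ℝ) ^ δ := by
    rw [← Real.log_le_log_iff (by positivity) (by positivity), Real.log_pow, Real.log_rpow hc0]
    exact hk1
  have hle : ∀ z ∈ P, (z : ℝ) ≤ (c : ℝ) ^ δ := by
    intro z hz
    refine le_trans ?_ hpow
    exact_mod_cast (hP z hz).2
  exact ⟨x, y, (hP x hx.1).1, (hP y hy.1).1, hxy,
    fun hd => hx.2 (Nat.mem_primeFactors.2 ⟨(hP x hx.1).1, hd, hcne⟩),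
    fun hd => hy.2 (Nat.mem_primeFactors.2 ⟨(hP y hy.1).1, hd, hcne⟩), hle x hx.1, hle y hy.1⟩

/-- a power in a given range -/
lemma exists_power {x : ℕ} (hx : 2 ≤ x) {Y : ℝ} (hY : 1 ≤ Y) :
    ∃ i : ℕ, Y ≤ (x : ℝ) ^ i ∧ (x : ℝ) ^ i ≤ x * Y := by
  have hxR : (1 : ℝ) < x := by exact_mod_cast hx
  obtain ⟨n, h1, h2⟩ := exists_nat_pow_near hY hxR
  refine ⟨n + 1, h2.le, ?_⟩
  rw [pow_succ, mul_comm]
  gcongr

lemma rad_mul_le (m n : ℕ) : rad (m * n) ≤ rad m * rad n := by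
  classical
  have h0 : rad 0 = 1 := by simp [rad]
  rcases Nat.eq_zero_or_pos m with h | h
  · rw [h, zero_mul, h0, one_mul]
    exact rad_pos n
  rcases Nat.eq_zero_or_pos n with h' | h'
  · rw [h', mul_zero, h0, mul_one]
    exact rad_pos m
  unfold rad
  rw [Nat.primeFactors_mul h.ne' h'.ne', ← prod_union_inter]
  exact Nat.le_mul_of_pos_right _ (prod_pos fun p hp =>
    (Nat.prime_of_mem_primeFactors (mem_inter.1 hp).1).pos)

lemma rad_pow_le {x : ℕ} (hx : x.Prime) (i : ℕ) : rad (x ^ i) ≤ x := by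
  rcases Nat.eq_zero_or_pos i with h | h
  · have h0 : rad 1 = 1 := by simp [rad]
    rw [h, pow_zero, h0]
    exact hx.one_le
  · unfold rad
    rw [Nat.primeFactors_prime_pow h.ne' hx, prod_singleton]

lemma rad_le_self {n : ℕ} (hn : 0 < n) : rad n ≤ n :=
  Nat.le_of_dvd hn (Nat.prod_primeFactors_dvd n)

/-- the radical of a multiple of a large power of a prime -/
lemma rad_multiple {x i a c : ℕ} {R : ℝ} (hx : x.Prime) (hd : x ^ i ∣ a) (ha : 0 < a) (hac : a ≤ c)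
    (hR : 0 < R) (h : (x : ℝ) * c / R ≤ (x : ℝ) ^ i) : (rad a : ℝ) ≤ R := by
  obtain ⟨A, hA⟩ := hd
  have hApos : 0 < A := by
    rcases Nat.eq_zero_or_pos A with h0 | h0
    · rw [h0, mul_zero] at hA
      omega
    · exact h0
  have h1 : rad a ≤ x * A := by
    rw [hA]
    exact (rad_mul_le _ _).trans (Nat.mul_le_mul (rad_pow_le hx i) (rad_le_self hApos))
  have hxR : (0 : ℝ) < x := by exact_mod_cast hx.pos
  have h2 : (x : ℝ) * c ≤ (x : ℝ) ^ i * R := by rwa [div_le_iff₀ hR] at h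
  have h3 : (x : ℝ) ^ i * (x * A) ≤ (x : ℝ) ^ i * R := by
    calc (x : ℝ) ^ i * (x * A) = x * ((x : ℝ) ^ i * A) := by ring
      _ = x * (a : ℝ) := by rw [hA]; push_cast; ring
      _ ≤ x * c := by gcongr
      _ ≤ _ := h2
  have h4 : (x : ℝ) * A ≤ R := le_of_mul_le_mul_left h3 (by positivity)
  calc (rad a : ℝ) ≤ ((x * A : ℕ) : ℝ) := by exact_mod_cast h1
    _ = (x : ℝ) * A := by push_cast; ring
    _ ≤ R := h4

/-- a solution of a linear congruence in an interval -/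
lemma exists_start {u v : ℕ} (hv : 0 < v) (huv : Nat.Coprime u v) (c m : ℕ) :
    ∃ s : ℕ, s < v ∧ (v : ℤ) ∣ (c : ℤ) - ((m + s : ℕ) : ℤ) * u := by
  have : NeZero v := ⟨hv.ne'⟩
  set w : (ZMod v)ˣ := ZMod.unitOfCoprime u huv with hw
  refine ⟨((c : ZMod v) * ((w⁻¹ : (ZMod v)ˣ) : ZMod v) - m).val, ZMod.val_lt _, ?_⟩
  rw [← ZMod.intCast_zmod_eq_zero_iff_dvd]
  push_cast
  rw [ZMod.natCast_zmod_val]
  have h1 : (u : ZMod v) = (w : ZMod v) := by rw [hw, ZMod.coe_unitOfCoprime]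
  rw [h1]
  have h2 : ((w⁻¹ : (ZMod v)ˣ) : ZMod v) * (w : ZMod v) = 1 := Units.inv_mul w
  linear_combination (-(c : ZMod v)) * h2

/-- the numerical part of the lower bound -/
lemma numeric {Q w D T : ℝ} (hD : 1 ≤ D) (hw : 16 * D ^ 2 ≤ w) (hQ : w ^ 16 ≤ Q)
    (hT : Q / (8 * w ^ 4) - 1 ≤ T) : Q * (w ^ 16)⁻¹ ≤ T * (D * w)⁻¹ - D * w := by
  have hw16 : 16 ≤ w := by nlinarith
  have hw0 : 0 < w := by linarith
  have hD0 : 0 < D := by linarith
  set S : ℝ := Q / w ^ 5 with hS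
  have hSw : w ^ 11 ≤ S := by
    rw [hS, le_div_iff₀ (by positivity)]
    calc w ^ 11 * w ^ 5 = w ^ 16 := by ring
      _ ≤ Q := hQ
  have h1 : Q * (w ^ 16)⁻¹ = S / w ^ 11 := by
    rw [hS]
    field_simp
  have h2 : (Q / (8 * w ^ 4) - 1) * (D * w)⁻¹ = S / (8 * D) - (D * w)⁻¹ := by
    rw [hS]
    field_simp
  have h3 : (Q / (8 * w ^ 4) - 1) * (D * w)⁻¹ ≤ T * (D * w)⁻¹ := by gcongr
  have hw11 : w ^ 3 ≤ w ^ 11 := pow_le_pow_right₀ (by linarith) (by norm_num)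
  have hww : 16 * w ≤ w ^ 2 := by nlinarith
  have hw3 : w ^ 2 * 16 ≤ w ^ 3 := by nlinarith [mul_pos hw0 hw0]
  have hDw : D ≤ w := by nlinarith
  have h8 : 16 * D ≤ w ^ 11 := by nlinarith
  have hS0 : 0 < S := lt_of_lt_of_le (by positivity) hSw
  have h4 : S / w ^ 11 ≤ S / (16 * D) := by gcongr
  have h5 : (D * w)⁻¹ ≤ 1 := inv_le_one_of_one_le₀ (by nlinarith)
  have h6 : 1 + D * w ≤ S / (16 * D) := by
    rw [le_div_iff₀ (by positivity)]
    have h7 : w ^ 3 ≤ S := hw11.trans hSw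
    have h10 : (1 + D * w) * (16 * D) = 16 * D + 16 * D ^ 2 * w := by ring
    rw [h10]
    have h11 : 16 * D ^ 2 * w ≤ w * w := by
      apply mul_le_mul_of_nonneg_right _ hw0.le
      linarith
    nlinarith
  have h13 : S / (8 * D) = S / (16 * D) + S / (16 * D) := by
    field_simp
    norm_num
  rw [h1]
  linarith

/-- **The lower bound.** -/
theorem lower (ε : ℝ) (hε : 0 < ε) : ∃ X₀ : ℕ, 1 ≤ X₀ ∧ ∀ X : ℕ, X₀ ≤ X → ∀ κ Y : ℕ, 1 ≤ κ →
    κ ≤ X → 1 ≤ Y → 8 * Y ≤ 7 * X → ∀ R₁ R₂ : ℝ, 0 ≤ R₁ → R₁ ≤ X → 0 ≤ R₂ → R₂ ≤ X →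
    (X : ℝ) ^ (1 + ε) ≤ R₁ * R₂ → ∃ G : Finset ℕ, (∀ a ∈ G, Y ≤ a ∧ 8 * a ≤ 8 * Y + X ∧
      Nat.Coprime a κ ∧ (rad a : ℝ) ≤ R₁ ∧ ∀ b : ℕ, 0 < b → b ≤ X →
        ((b : ℤ) = κ - a ∨ (b : ℤ) = a - κ) → (rad b : ℝ) ≤ R₂) ∧
      R₁ * R₂ / X * ((X : ℝ) ^ ε)⁻¹ ≤ (G.card : ℝ) := by
  classical
  obtain ⟨D, hD, hA1⟩ := stmtA1 2 (by norm_num) (ε / 16) (by positivity)
  obtain ⟨c₁, hc₁, hpr⟩ := two_primes (ε / 16) (by positivity)
  set D' : ℝ := D + 1 with hD'
  have hD'1 : 1 ≤ D' := by linarith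
  obtain ⟨c₂, hc₂⟩ := exists_nat_gt ((16 * D' ^ 2) ^ (16 / ε))
  refine ⟨max c₁ c₂, hc₁.trans (le_max_left _ _),
    fun c hc κ Y hκ hκc hY hYc R₁ R₂ hR₁ hR₁c hR₂ hR₂c hRR => ?_⟩
  have hcc₁ : c₁ ≤ c := (le_max_left _ _).trans hc
  have hcc₂ : c₂ ≤ c := (le_max_right _ _).trans hc
  have hc1 : (1 : ℝ) ≤ c := by exact_mod_cast hc₁.trans hcc₁
  have hc0 : (0 : ℝ) < c := by linarith
  have hcN : 0 < c := by exact_mod_cast hc0
  have hκR : (1 : ℝ) ≤ κ := by exact_mod_cast hκ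
  have hκcR : (κ : ℝ) ≤ c := by exact_mod_cast hκc
  obtain ⟨x, y, hx, hy, hxy, hxc, hyc, hxδ, hyδ⟩ := hpr c hcc₁ κ hκ hκc
  set w : ℝ := (c : ℝ) ^ (ε / 16) with hw
  have hw16 : w ^ 16 = (c : ℝ) ^ ε := by
    rw [hw, ← Real.rpow_natCast, ← Real.rpow_mul hc0.le]
    congr 1
    push_cast
    ring
  have hwD : 16 * D' ^ 2 ≤ w := by
    have h1 : (16 * D' ^ 2) ^ (16 / ε) ≤ c := hc₂.le.trans (by exact_mod_cast hcc₂)
    have h2 := Real.rpow_le_rpow (by positivity) h1 (show 0 ≤ ε / 16 by positivity)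
    rw [← Real.rpow_mul (by positivity)] at h2
    have h3 : 16 / ε * (ε / 16) = 1 := by field_simp
    rwa [h3, Real.rpow_one] at h2
  have hw0 : 0 < w := by positivity
  have hRpos : 0 < R₁ * R₂ := lt_of_lt_of_le (by positivity) hRR
  have hR₁0 : 0 < R₁ := by
    rcases hR₁.lt_or_eq with h | h
    · exact h
    · rw [← h, zero_mul] at hRpos
      exact absurd hRpos (lt_irrefl _)
  have hR₂0 : 0 < R₂ := pos_of_mul_pos_right hRpos hR₁
  have hx2 : (2 : ℝ) ≤ x := by exact_mod_cast hx.two_le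
  have hy2 : (2 : ℝ) ≤ y := by exact_mod_cast hy.two_le
  have hY₁ : 1 ≤ (x : ℝ) * c / R₁ := by
    rw [le_div_iff₀ hR₁0]
    nlinarith
  have hY₂ : 1 ≤ (y : ℝ) * c / R₂ := by
    rw [le_div_iff₀ hR₂0]
    nlinarith
  obtain ⟨i, hi1, hi2⟩ := exists_power hx.two_le hY₁
  obtain ⟨j, hj1, hj2⟩ := exists_power hy.two_le hY₂
  set u : ℕ := x ^ i with hu
  set v : ℕ := y ^ j with hv
  have hu0 : 0 < u := pow_pos hx.pos i
  have hv0 : 0 < v := pow_pos hy.pos j
  have huR : (0 : ℝ) < u := by exact_mod_cast hu0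
  have hvR : (0 : ℝ) < v := by exact_mod_cast hv0
  have huv : Nat.Coprime u v := Nat.Coprime.pow i j ((Nat.coprime_primes hx hy).2 hxy)
  have huc : Nat.Coprime u κ := Nat.Coprime.pow_left i ((Nat.Prime.coprime_iff_not_dvd hx).2 hxc)
  have hvc : ∀ p ∈ κ.primeFactors, p.Prime ∧ ¬ p ∣ v := by
    intro p hp
    have hpp := Nat.prime_of_mem_primeFactors hp
    refine ⟨hpp, fun h => hyc ?_⟩
    have h1 := (Nat.prime_dvd_prime_iff_eq hpp hy).1 (hpp.dvd_of_dvd_pow h)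
    rw [← h1]
    exact Nat.dvd_of_mem_primeFactors hp
  have huv_le : (u : ℝ) * v ≤ w ^ 4 * c * (c / (R₁ * R₂)) := by
    have h1 : (u : ℝ) ≤ x * (x * c / R₁) := by rw [hu]; push_cast; exact hi2
    have h2 : (v : ℝ) ≤ y * (y * c / R₂) := by rw [hv]; push_cast; exact hj2
    calc (u : ℝ) * v ≤ (x * (x * c / R₁)) * (y * (y * c / R₂)) := by gcongr
      _ = (x * x * y * y) * c * (c / (R₁ * R₂)) := by field_simp
      _ ≤ (w * w * w * w) * c * (c / (R₁ * R₂)) := by gcongr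
      _ = _ := by ring
  set T : ℕ := ⌊(c : ℝ) / (8 * u * v)⌋₊ with hT
  have hT1 : (T : ℝ) ≤ (c : ℝ) / (8 * u * v) := Nat.floor_le (by positivity)
  have hT2 : R₁ * R₂ / c / (8 * w ^ 4) - 1 ≤ T := by
    have h1 : (c : ℝ) / (8 * u * v) < T + 1 := Nat.lt_floor_add_one _
    have h2 : R₁ * R₂ / c / (8 * w ^ 4) ≤ (c : ℝ) / (8 * u * v) := by
      rw [le_div_iff₀ (by positivity)]
      calc R₁ * R₂ / c / (8 * w ^ 4) * (8 * u * v)
          = R₁ * R₂ / c / (8 * w ^ 4) * 8 * (u * v) := by ring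
        _ ≤ R₁ * R₂ / c / (8 * w ^ 4) * 8 * (w ^ 4 * c * (c / (R₁ * R₂))) := by gcongr
        _ = c := by field_simp
    linarith
  set m : ℕ := ⌈(Y : ℝ) / u⌉₊ with hm
  have hm1 : (Y : ℝ) / u ≤ m := Nat.le_ceil _
  have hm2 : (m : ℝ) < (Y : ℝ) / u + 1 := Nat.ceil_lt_add_one (by positivity)
  obtain ⟨s, hs1, hs2⟩ := exists_start hv0 huv κ m
  set A : ℕ := m + s with hA
  have hAle : (A : ℝ) ≤ (Y : ℝ) / u + v := by
    have h1 : (s : ℝ) + 1 ≤ v := by exact_mod_cast hs1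
    rw [hA]
    push_cast
    linarith
  set G : Finset ℕ := (range T).filter fun t => ∀ p ∈ κ.primeFactors, ¬ p ∣ A + v * t with hG
  have hinj : Set.InjOn (fun t => (A + v * t) * u) (G : Set ℕ) := by
    intro t _ t' _ h
    have h1 : (A + v * t) * u = (A + v * t') * u := h
    have h2 := Nat.eq_of_mul_eq_mul_right hu0 h1
    have h3 : v * t = v * t' := by omega
    exact Nat.eq_of_mul_eq_mul_left hv0 h3
  refine ⟨G.image fun t => (A + v * t) * u, ?_, ?_⟩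
  · intro a ha
    obtain ⟨t, ht, rfl⟩ := mem_image.1 ha
    rw [hG, mem_filter, mem_range] at ht
    obtain ⟨ht1, ht2⟩ := ht
    set a : ℕ := (A + v * t) * u with haeq
    have haR : (a : ℝ) = (A + v * t) * u := by rw [haeq]; push_cast; ring
    have hlow : (Y : ℝ) ≤ a := by
      have h1 : (Y : ℝ) / u ≤ A + v * t := by
        have h2 : (0 : ℝ) ≤ s := Nat.cast_nonneg _
        have h3 : (0 : ℝ) ≤ v * t := by positivity
        have h4 : (A : ℝ) = m + s := by rw [hA]; push_cast; ring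
        linarith
      rw [div_le_iff₀ (by positivity)] at h1
      rw [haR]
      linarith
    have hupp : 8 * (a : ℝ) ≤ 8 * Y + c := by
      have h1 : (t : ℝ) + 1 ≤ T := by exact_mod_cast ht1
      have h2 : (A : ℝ) + v * t ≤ (Y : ℝ) / u + v * T := by
        have h3 : (v : ℝ) * (t + 1) ≤ v * T := by gcongr
        linarith
      have h4 : (v : ℝ) * T ≤ (c : ℝ) / (8 * u) := by
        calc (v : ℝ) * T ≤ v * ((c : ℝ) / (8 * u * v)) := by gcongr
          _ = (c : ℝ) / (8 * u) := by field_simp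
      have h5 : (A : ℝ) + v * t ≤ (8 * Y + c) / (8 * u) := by
        have h6 : (8 * (Y : ℝ) + c) / (8 * u) = (Y : ℝ) / u + (c : ℝ) / (8 * u) := by
          field_simp
        rw [h6]
        linarith
      rw [le_div_iff₀ (by positivity)] at h5
      rw [haR]
      linarith
    have hlowN : Y ≤ a := by exact_mod_cast hlow
    have huppN : 8 * a ≤ 8 * Y + c := by exact_mod_cast hupp
    have hapos : 0 < a := by omega
    have hac : a ≤ c := by omega
    have hcop : Nat.Coprime a κ := by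
      rw [haeq]
      refine Nat.Coprime.mul_left ?_ huc
      refine Nat.Coprime.symm ?_
      rw [Nat.coprime_iff_gcd_eq_one]
      by_contra hne
      obtain ⟨p, hp, hpd⟩ := Nat.exists_prime_and_dvd hne
      exact ht2 p (Nat.mem_primeFactors.2 ⟨hp, hpd.trans (Nat.gcd_dvd_left _ _), by omega⟩)
        (hpd.trans (Nat.gcd_dvd_right _ _))
    have hvd : (v : ℤ) ∣ (κ : ℤ) - a := by
      have h2 : (κ : ℤ) - a = ((κ : ℤ) - ((m + s : ℕ) : ℤ) * u) - (v : ℤ) * (t * u) := by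
        rw [haeq, hA]
        push_cast
        ring
      rw [h2]
      exact dvd_sub hs2 (Dvd.intro _ rfl)
    refine ⟨hlowN, huppN, hcop, ?_, ?_⟩
    · exact rad_multiple hx (by rw [haeq]; exact Dvd.intro_left _ rfl) hapos hac hR₁0 hi1
    · intro b hb hbc hbeq
      refine rad_multiple hy ?_ hb hbc hR₂0 hj1
      rw [← Int.natCast_dvd_natCast]
      rcases hbeq with h | h
      · rw [h]
        exact hvd
      · rw [h, ← neg_sub, dvd_neg]
        exact hvd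
  · have hcard : (((G.image fun t => (A + v * t) * u).card : ℕ) : ℝ) = G.card := by
      rw [card_image_of_injOn hinj]
    have hsieve := sieve (A := A) (v := v) (T := T) κ.primeFactors hvc
    have h2ω : (2 : ℝ) ^ κ.primeFactors.card ≤ D' * w := by
      have h1 := hA1 κ hκ
      calc (2 : ℝ) ^ κ.primeFactors.card ≤ D * (κ : ℝ) ^ (ε / 16) := h1
        _ ≤ D' * w := by
            rw [hw]
            gcongr
            linarith
    have hprod : (D' * w)⁻¹ ≤ ∏ p ∈ κ.primeFactors, (1 - 1 / (p : ℝ)) := by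
      calc (D' * w)⁻¹ ≤ ((2 : ℝ) ^ κ.primeFactors.card)⁻¹ := by gcongr
        _ = ∏ p ∈ κ.primeFactors, (1 / 2 : ℝ) := by
            rw [prod_const, one_div, inv_pow]
        _ ≤ _ := by
            refine prod_le_prod (fun _ _ => by norm_num) fun p hp => ?_
            have h1 : (2 : ℝ) ≤ p := by exact_mod_cast (Nat.prime_of_mem_primeFactors hp).two_le
            have h2 : 1 / (p : ℝ) ≤ 1 / 2 := by gcongr
            linarith
    have hnum := numeric (Q := R₁ * R₂ / c) hD'1 hwD (by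
      rw [hw16, le_div_iff₀ hc0]
      calc (c : ℝ) ^ ε * c = (c : ℝ) ^ (1 + ε) := by
            rw [Real.rpow_add hc0, Real.rpow_one]
            ring
        _ ≤ _ := hRR) hT2
    rw [hw16] at hnum
    rw [hcard]
    calc R₁ * R₂ / c * ((c : ℝ) ^ ε)⁻¹ ≤ T * (D' * w)⁻¹ - D' * w := hnum
      _ ≤ T * ∏ p ∈ κ.primeFactors, (1 - 1 / (p : ℝ)) - 2 ^ κ.primeFactors.card := by
          gcongr
      _ ≤ (G.card : ℝ) := hsieve

end Pool.Agent.H584.Maz
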