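import Mathlib
import Pool.Agent.H584.Maz.Lower

/-!
# Triples with radicals bounded by powers of the members
-/

set_option autoImplicit false

namespace Pool.Agent.H584.Maz

open Finset Filter Topology
open Pool.Agent.H785R2.ABC (rad StmtA1 StmtA2 StmtA3 StmtA4 stmtA1 stmtA2 stmtA3_of stmtA4_of)

/-- the logarithmic order of growth -/
lemma tendsto_log {N : ℕ → ℝ} {s : ℝ} (hl : ∀ ε : ℝ, 0 < ε → ∀ᶠ n : ℕ in atTop, (n : ℝ) ^ (s - ε) ≤ N n)
    (hu : ∀ ε : ℝ, 0 < ε → ∃ K : ℝ, 0 < K ∧ ∀ᶠ n : ℕ in atTop, N n ≤ K * (n : ℝ) ^ (s + ε)) :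
    Tendsto (fun n : ℕ => Real.log (N n) / Real.log n) atTop (𝓝 s) := by
  rw [Metric.tendsto_atTop']
  intro ε hε
  obtain ⟨K, hK, h1⟩ := hu (ε / 4) (by positivity)
  have h2 := hl (ε / 4) (by positivity)
  have hlog : Tendsto (fun n : ℕ => Real.log (n : ℝ)) atTop atTop :=
    Real.tendsto_log_atTop.comp tendsto_natCast_atTop_atTop
  have h3 : ∀ᶠ n : ℕ in atTop, max 1 (|Real.log K| * (4 / ε)) ≤ Real.log (n : ℝ) :=
    hlog.eventually_ge_atTop _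
  have h4 : ∀ᶠ n : ℕ in atTop, 1 ≤ n := eventually_ge_atTop 1
  obtain ⟨n₀, hn₀⟩ := eventually_atTop.1 (((h1.and h2).and h3).and h4)
  refine ⟨n₀, fun n hn => ?_⟩
  obtain ⟨⟨⟨g1, g2⟩, g3⟩, g4⟩ := hn₀ n hn.le
  have hn0 : (0 : ℝ) < n := by exact_mod_cast g4
  have hL1 : 1 ≤ Real.log (n : ℝ) := (le_max_left _ _).trans g3
  have hL0 : 0 < Real.log (n : ℝ) := by linarith
  have hL2 : |Real.log K| * (4 / ε) ≤ Real.log (n : ℝ) := (le_max_right _ _).trans g3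
  have hL3 : |Real.log K| ≤ ε / 4 * Real.log n := by
    have h5 : |Real.log K| * (4 / ε) * (ε / 4) ≤ Real.log n * (ε / 4) := by gcongr
    have h6 : |Real.log K| * (4 / ε) * (ε / 4) = |Real.log K| := by field_simp
    linarith
  have hpos : 0 < N n := lt_of_lt_of_le (by positivity) g2
  have h5 : (s - ε / 4) * Real.log n ≤ Real.log (N n) := by
    rw [← Real.log_rpow hn0]
    exact Real.log_le_log (by positivity) g2
  have h6 : Real.log (N n) ≤ Real.log K + (s + ε / 4) * Real.log n := by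
    rw [← Real.log_rpow hn0, ← Real.log_mul hK.ne' (by positivity)]
    exact Real.log_le_log hpos g1
  have h7 : Real.log (N n) ≤ (s + ε / 2) * Real.log n := by
    have := le_abs_self (Real.log K)
    linarith
  rw [Real.dist_eq, abs_lt]
  constructor
  · have h8 : s - ε / 4 ≤ Real.log (N n) / Real.log n := by
      rw [le_div_iff₀ hL0]
      exact h5
    linarith
  · have h8 : Real.log (N n) / Real.log n ≤ s + ε / 2 := by
      rw [div_le_iff₀ hL0]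
      exact h7
    linarith

/-- many integers of small radical -/
lemma many (γ ε : ℝ) (hγ : 0 < γ) (hγ1 : γ ≤ 1) (hε : 0 < ε) : ∃ Y₀ : ℕ, ∀ Y : ℕ, Y₀ ≤ Y →
    (Y : ℝ) ^ (γ - ε) ≤
      (((Ioc Y (2 * Y)).filter fun m => (rad m : ℝ) ≤ (m : ℝ) ^ γ).card : ℝ) := by
  classical
  have hev : ∀ᶠ Y : ℕ in atTop, (Y : ℝ) ^ (γ - ε) ≤ (Y : ℝ) ^ γ / 8 - 1 := by
    have h1 : Tendsto (fun Y : ℕ => (Y : ℝ) ^ ε) atTop atTop :=
      (tendsto_rpow_atTop hε).comp tendsto_natCast_atTop_atTop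
    have h2 : Tendsto (fun Y : ℕ => (Y : ℝ) ^ γ) atTop atTop :=
      (tendsto_rpow_atTop hγ).comp tendsto_natCast_atTop_atTop
    filter_upwards [h1.eventually_ge_atTop 16, h2.eventually_ge_atTop 16, eventually_ge_atTop 1]
      with Y g1 g2 g3
    have hY : (0 : ℝ) < Y := by exact_mod_cast g3
    rw [Real.rpow_sub hY, div_le_iff₀ (by positivity)]
    nlinarith
  obtain ⟨Y₀, hY₀⟩ := eventually_atTop.1 hev
  refine ⟨max Y₀ 1, fun Y hY => ?_⟩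
  have hY1 : 1 ≤ Y := (le_max_right _ _).trans hY
  have hYR : (1 : ℝ) ≤ Y := by exact_mod_cast hY1
  have hY0 : (0 : ℝ) < Y := by linarith
  have hbase := hY₀ Y ((le_max_left _ _).trans hY)
  obtain ⟨i, hi1, hi2⟩ := exists_power (x := 2) le_rfl (Y := 4 * (Y : ℝ) ^ (1 - γ)) (by
    have := Real.one_le_rpow hYR (show 0 ≤ 1 - γ by linarith)
    linarith)
  set d : ℕ := 2 ^ i with hd
  have hd0 : 0 < d := pow_pos (by norm_num) i
  have hdR : (0 : ℝ) < d := by exact_mod_cast hd0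
  have hd1 : 4 * (Y : ℝ) ^ (1 - γ) ≤ d := by rw [hd]; push_cast; exact hi1
  have hd2 : (d : ℝ) ≤ 8 * (Y : ℝ) ^ (1 - γ) := by
    rw [hd]
    push_cast
    have : ((2 : ℕ) : ℝ) * (4 * (Y : ℝ) ^ (1 - γ)) = 8 * (Y : ℝ) ^ (1 - γ) := by
      push_cast
      ring
    rw [← this]
    exact_mod_cast hi2
  have hsub : ((Ioc (Y / d) (2 * Y / d)).image fun l => d * l) ⊆
      (Ioc Y (2 * Y)).filter fun m => (rad m : ℝ) ≤ (m : ℝ) ^ γ := by
    intro m hm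
    obtain ⟨l, hl, rfl⟩ := mem_image.1 hm
    rw [mem_Ioc] at hl
    obtain ⟨hl1, hl2⟩ := hl
    have hm1 : Y < d * l := by
      have := Nat.lt_mul_of_div_lt hl1 hd0
      rwa [mul_comm] at this
    have hm2 : d * l ≤ 2 * Y := by
      have := Nat.mul_le_of_le_div d l (2 * Y) hl2
      rwa [mul_comm] at this
    rw [mem_filter, mem_Ioc]
    refine ⟨⟨hm1, hm2⟩, ?_⟩
    have hl0 : 0 < l := by
      rcases Nat.eq_zero_or_pos l with h | h
      · rw [h, mul_zero] at hm1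
        omega
      · exact h
    have h1 : rad (d * l) ≤ 2 * l :=
      (rad_mul_le _ _).trans (Nat.mul_le_mul (rad_pow_le Nat.prime_two i) (rad_le_self hl0))
    set m : ℕ := d * l with hmdef
    have hmR : (0 : ℝ) < m := by
      have : 0 < m := by omega
      exact_mod_cast this
    have h2 : (m : ℝ) ≤ 2 * Y := by exact_mod_cast hm2
    have h3 : (m : ℝ) ^ (1 - γ) ≤ 2 * (Y : ℝ) ^ (1 - γ) := by
      calc (m : ℝ) ^ (1 - γ) ≤ (2 * (Y : ℝ)) ^ (1 - γ) :=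
            Real.rpow_le_rpow hmR.le h2 (by linarith)
        _ = (2 : ℝ) ^ (1 - γ) * (Y : ℝ) ^ (1 - γ) := Real.mul_rpow (by norm_num) hY0.le
        _ ≤ (2 : ℝ) ^ (1 : ℝ) * (Y : ℝ) ^ (1 - γ) := by
            gcongr
            · norm_num
            · linarith
        _ = _ := by rw [Real.rpow_one]
    have h4 : 2 * (m : ℝ) ^ (1 - γ) ≤ d := by linarith
    have h5 : (2 : ℝ) * l * (m : ℝ) ^ (1 - γ) ≤ (m : ℝ) ^ γ * (m : ℝ) ^ (1 - γ) := by
      rw [← Real.rpow_add hmR]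
      have h6 : γ + (1 - γ) = 1 := by ring
      rw [h6, Real.rpow_one, hmdef]
      push_cast
      have h7 : (2 : ℝ) * l * (m : ℝ) ^ (1 - γ) = (2 * (m : ℝ) ^ (1 - γ)) * l := by ring
      have h8 : (2 * (m : ℝ) ^ (1 - γ)) * l ≤ d * l := by gcongr
      rw [hmdef] at h7 h8
      push_cast at h7 h8
      linarith
    have h6 : (2 : ℝ) * l ≤ (m : ℝ) ^ γ := le_of_mul_le_mul_right h5 (by positivity)
    calc (rad m : ℝ) ≤ ((2 * l : ℕ) : ℝ) := by exact_mod_cast h1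
      _ = 2 * (l : ℝ) := by push_cast; ring
      _ ≤ _ := h6
  have hinj : Set.InjOn (fun l => d * l) ((Ioc (Y / d) (2 * Y / d) : Finset ℕ) : Set ℕ) := by
    intro l _ l' _ h
    exact Nat.eq_of_mul_eq_mul_left hd0 h
  have hcard := card_le_card hsub
  rw [card_image_of_injOn hinj, Nat.card_Ioc] at hcard
  have h1 : (Y : ℝ) / d - 1 ≤ ((2 * Y / d - Y / d : ℕ) : ℝ) := by
    have h2 : Y / d ≤ 2 * Y / d := Nat.div_le_div_right (by omega)
    rw [Nat.cast_sub h2]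
    have h3 : ((Y / d : ℕ) : ℝ) ≤ (Y : ℝ) / d := Nat.cast_div_le
    have h4 : (2 * (Y : ℝ)) / d < ((2 * Y / d : ℕ) : ℝ) + 1 := by
      rw [div_lt_iff₀ hdR]
      have h6 : 2 * Y < (2 * Y / d + 1) * d := by
        have h7 := Nat.div_add_mod (2 * Y) d
        have h8 := Nat.mod_lt (2 * Y) hd0
        nlinarith
      exact_mod_cast h6
    have h5 : (2 * (Y : ℝ)) / d = (Y : ℝ) / d + (Y : ℝ) / d := by ring
    linarith
  have h2 : (Y : ℝ) ^ γ / 8 ≤ (Y : ℝ) / d := by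
    rw [div_le_div_iff₀ (by norm_num) hdR]
    calc (Y : ℝ) ^ γ * d ≤ (Y : ℝ) ^ γ * (8 * (Y : ℝ) ^ (1 - γ)) := by gcongr
      _ = (Y : ℝ) ^ γ * (Y : ℝ) ^ (1 - γ) * 8 := by ring
      _ = Y * 8 := by
          rw [← Real.rpow_add hY0]
          have : γ + (1 - γ) = 1 := by ring
          rw [this, Real.rpow_one]
  have h3 : ((2 * Y / d - Y / d : ℕ) : ℝ) ≤
      (((Ioc Y (2 * Y)).filter fun m => (rad m : ℝ) ≤ (m : ℝ) ^ γ).card : ℝ) := by
    exact_mod_cast hcard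
  linarith

/-- `a + b = c` -/
def OwnS (α β : ℝ) (c : ℕ) (t : ℕ × ℕ) : Prop :=
  0 < t.1 ∧ 0 < t.2 ∧ Nat.Coprime t.1 t.2 ∧ t.1 + t.2 = c ∧ (rad t.1 : ℝ) ≤ (t.1 : ℝ) ^ α ∧
    (rad t.2 : ℝ) ≤ (t.2 : ℝ) ^ β

/-- `k + b = c ≤ X` -/
def OwnD (β γ : ℝ) (k X : ℕ) (t : ℕ × ℕ) : Prop :=
  0 < t.1 ∧ Nat.Coprime k t.1 ∧ k + t.1 = t.2 ∧ t.2 ≤ X ∧ (rad t.1 : ℝ) ≤ (t.1 : ℝ) ^ β ∧
    (rad t.2 : ℝ) ≤ (t.2 : ℝ) ^ γ

lemma main_term {X s : ℝ} (hX : 1 ≤ X) (hs : 5 / 3 ≤ s) :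
    X ^ s / X + X ^ (2 / 3 : ℝ) ≤ 2 * X ^ (s - 1) := by
  have h1 : X ^ s / X = X ^ (s - 1) := by
    rw [Real.rpow_sub (by linarith), Real.rpow_one]
  have h2 : X ^ (2 / 3 : ℝ) ≤ X ^ (s - 1) :=
    Real.rpow_le_rpow_of_exponent_le hX (by linarith)
  rw [h1]
  linarith

lemma sum_upper (α β : ℝ) (hα : 0 < α) (hβ : 0 < β) (hs : 5 / 3 ≤ α + β) (ε : ℝ) (hε : 0 < ε) :
    ∃ K : ℝ, 0 < K ∧ ∀ c : ℕ, 1 ≤ c → ∀ F : Finset (ℕ × ℕ), (∀ t ∈ F, OwnS α β c t) →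
      (F.card : ℝ) ≤ K * (c : ℝ) ^ (α + β - 1 + ε) := by
  obtain ⟨K, hK, h⟩ := upper ε hε
  refine ⟨2 * K, by positivity, fun c hc F hF => ?_⟩
  have hc1 : (1 : ℝ) ≤ c := by exact_mod_cast hc
  have hc0 : (0 : ℝ) < c := by linarith
  have h1 := h c hc 1 c ((c : ℝ) ^ α) ((c : ℝ) ^ β) F (Or.inl rfl) (by positivity) (by positivity)
    (by
      intro t ht
      obtain ⟨e1, e2, e3, e4, e5, e6⟩ := hF t ht
      have h5 : t.1 ≤ c := by omega
      have h6 : t.2 ≤ c := by omega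
      refine ⟨e1, e2, e3, by omega, h5, h6, by omega, e5.trans ?_, e6.trans ?_⟩
      · exact Real.rpow_le_rpow (Nat.cast_nonneg _) (by exact_mod_cast h5) hα.le
      · exact Real.rpow_le_rpow (Nat.cast_nonneg _) (by exact_mod_cast h6) hβ.le)
  rw [← Real.rpow_add hc0] at h1
  calc (F.card : ℝ) ≤ K * (c : ℝ) ^ ε * ((c : ℝ) ^ (α + β) / c + (c : ℝ) ^ (2 / 3 : ℝ)) := h1
    _ ≤ K * (c : ℝ) ^ ε * (2 * (c : ℝ) ^ (α + β - 1)) := by
        gcongr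
        exact main_term hc1 hs
    _ = 2 * K * (c : ℝ) ^ (α + β - 1 + ε) := by
        rw [Real.rpow_add hc0 (α + β - 1) ε]
        ring

lemma diff_upper (β γ : ℝ) (hβ : 0 < β) (hγ : 0 < γ) (hs : 5 / 3 ≤ β + γ) (ε : ℝ) (hε : 0 < ε) :
    ∃ K : ℝ, 0 < K ∧ ∀ X : ℕ, 1 ≤ X → ∀ (k : ℕ) (F : Finset (ℕ × ℕ)), (∀ t ∈ F, OwnD β γ k X t) →
      (F.card : ℝ) ≤ K * (X : ℝ) ^ (β + γ - 1 + ε) := by
  classical
  obtain ⟨K, hK, h⟩ := upper (ε / 2) (by positivity)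
  set s : ℝ := β + γ - 1 + ε / 2 with hsdef
  have hs0 : 0 < s := by rw [hsdef]; linarith
  refine ⟨2 * K * 2 ^ s * (4 / ε + 1), by positivity, fun X hX k F hF => ?_⟩
  have hX1 : (1 : ℝ) ≤ X := by exact_mod_cast hX
  have hX0 : (0 : ℝ) < X := by linarith
  have hmaps : ∀ t ∈ F, Nat.log 2 t.2 ∈ range (Nat.log 2 X + 1) := by
    intro t ht
    obtain ⟨e1, e2, e3, e4, e5, e6⟩ := hF t ht
    rw [mem_range]
    exact Nat.lt_succ_of_le (Nat.log_mono_right e4)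
  rw [card_eq_sum_card_fiberwise hmaps, Nat.cast_sum]
  have hfib : ∀ j ∈ range (Nat.log 2 X + 1),
      ((F.filter fun t => Nat.log 2 t.2 = j).card : ℝ) ≤ 2 * K * 2 ^ s * (X : ℝ) ^ s := by
    intro j hj
    rw [mem_range] at hj
    set Z : ℕ := 2 ^ (j + 1) with hZ
    have hZX : Z ≤ 2 * X := by
      have h1 : 2 ^ j ≤ X := (Nat.pow_le_pow_right (by norm_num) (by omega)).trans
        (Nat.pow_log_le_self 2 (by omega))
      rw [hZ, pow_succ]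
      omega
    have hZ1 : 1 ≤ Z := Nat.one_le_two_pow
    have hZR : (1 : ℝ) ≤ Z := by exact_mod_cast hZ1
    have hZ0 : (0 : ℝ) < Z := by linarith
    have hcard : (F.filter fun t => Nat.log 2 t.2 = j).card =
        ((F.filter fun t => Nat.log 2 t.2 = j).image Prod.swap).card :=
      (card_image_of_injective _ Prod.swap_injective).symm
    have h1 := h Z hZ1 (-1) k ((Z : ℝ) ^ γ) ((Z : ℝ) ^ β)
      ((F.filter fun t => Nat.log 2 t.2 = j).image Prod.swap) (Or.inr rfl) (by positivity)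
      (by positivity) (by
        intro t' ht'
        obtain ⟨t, ht, rfl⟩ := mem_image.1 ht'
        obtain ⟨ht1, ht2⟩ := mem_filter.1 ht
        obtain ⟨e1, e2, e3, e4, e5, e6⟩ := hF t ht1
        have g0 : 0 < t.2 := by omega
        have g1 : t.2 < Z := by
          rw [hZ, ← ht2]
          exact Nat.lt_pow_succ_log_self (by norm_num) _
        have g2 : Z ≤ 2 * t.2 := by
          have := Nat.pow_log_le_self 2 g0.ne'
          rw [ht2] at this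
          rw [hZ, pow_succ]
          omega
        refine ⟨g0, e1, ?_, ?_, g1.le, ?_, Or.inl g2, e6.trans ?_, e5.trans ?_⟩
        · show Nat.Coprime t.2 t.1
          rw [← e3]
          simpa using e2
        · show (t.2 : ℤ) + -1 * t.1 = k
          omega
        · show t.1 ≤ Z
          omega
        · exact Real.rpow_le_rpow (Nat.cast_nonneg _) (by exact_mod_cast g1.le) hγ.le
        · refine Real.rpow_le_rpow (Nat.cast_nonneg _) ?_ hβ.le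
          have : t.1 ≤ Z := by omega
          exact_mod_cast this)
    rw [hcard]
    rw [← Real.rpow_add hZ0] at h1
    calc _ ≤ K * (Z : ℝ) ^ (ε / 2) * ((Z : ℝ) ^ (γ + β) / Z + (Z : ℝ) ^ (2 / 3 : ℝ)) := h1
      _ ≤ K * (Z : ℝ) ^ (ε / 2) * (2 * (Z : ℝ) ^ (γ + β - 1)) := by
          gcongr
          exact main_term hZR (by linarith)
      _ = 2 * K * (Z : ℝ) ^ s := by
          have h2 : s = (γ + β - 1) + ε / 2 := by rw [hsdef]; ring
          rw [h2, Real.rpow_add hZ0]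
          ring
      _ ≤ 2 * K * (2 * (X : ℝ)) ^ s := by
          gcongr
          exact_mod_cast hZX
      _ = 2 * K * 2 ^ s * (X : ℝ) ^ s := by
          rw [Real.mul_rpow (by norm_num) hX0.le]
          ring
  refine (sum_le_sum hfib).trans ?_
  rw [sum_const, card_range, nsmul_eq_mul]
  have hlog : ((Nat.log 2 X + 1 : ℕ) : ℝ) ≤ (4 / ε + 1) * (X : ℝ) ^ (ε / 2) := by
    have h1 : ((Nat.log 2 X : ℕ) : ℝ) * Real.log 2 ≤ Real.log X := by
      rw [← Real.log_pow]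
      refine Real.log_le_log (by positivity) ?_
      exact_mod_cast Nat.pow_log_le_self 2 (by omega)
    have h2 : Real.log X ≤ (X : ℝ) ^ (ε / 2) / (ε / 2) := Real.log_le_rpow_div hX0.le (by positivity)
    have h3 : (1 / 2 : ℝ) ≤ Real.log 2 := by
      have := Real.log_two_gt_d9
      linarith
    have h4 : (0 : ℝ) ≤ ((Nat.log 2 X : ℕ) : ℝ) := Nat.cast_nonneg _
    have h5 : ((Nat.log 2 X : ℕ) : ℝ) * (1 / 2) ≤ (X : ℝ) ^ (ε / 2) / (ε / 2) := by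
      have h6 : ((Nat.log 2 X : ℕ) : ℝ) * (1 / 2) ≤ ((Nat.log 2 X : ℕ) : ℝ) * Real.log 2 := by
        gcongr
      linarith
    have h6 : (X : ℝ) ^ (ε / 2) / (ε / 2) = 2 / ε * (X : ℝ) ^ (ε / 2) := by
      field_simp
    have h7 : 1 ≤ (X : ℝ) ^ (ε / 2) := Real.one_le_rpow hX1 (by positivity)
    push_cast
    have h8 : (4 / ε + 1) * (X : ℝ) ^ (ε / 2) = 2 * (2 / ε * (X : ℝ) ^ (ε / 2)) + (X : ℝ) ^ (ε / 2) := by
      ring
    rw [h8, ← h6]
    linarith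
  calc ((Nat.log 2 X + 1 : ℕ) : ℝ) * (2 * K * 2 ^ s * (X : ℝ) ^ s)
      ≤ ((4 / ε + 1) * (X : ℝ) ^ (ε / 2)) * (2 * K * 2 ^ s * (X : ℝ) ^ s) := by gcongr
    _ = 2 * K * 2 ^ s * (4 / ε + 1) * (X : ℝ) ^ (β + γ - 1 + ε) := by
        have h2 : β + γ - 1 + ε = s + ε / 2 := by rw [hsdef]; ring
        rw [h2, Real.rpow_add hX0 s (ε / 2)]
        ring

/-- a numerical fact -/
lemma ev_quarter (s ε : ℝ) (hε : 0 < ε) :
    ∃ X₀ : ℕ, 1 ≤ X₀ ∧ ∀ X : ℕ, X₀ ≤ X → (X : ℝ) ^ (s - ε) ≤ ((X : ℝ) / 4) ^ s := by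
  have h1 : Tendsto (fun Y : ℕ => (Y : ℝ) ^ ε) atTop atTop :=
    (tendsto_rpow_atTop hε).comp tendsto_natCast_atTop_atTop
  obtain ⟨X₀, hX₀⟩ := eventually_atTop.1 (h1.eventually_ge_atTop ((4 : ℝ) ^ s))
  refine ⟨max X₀ 1, le_max_right _ _, fun X hX => ?_⟩
  have h2 : 1 ≤ X := (le_max_right _ _).trans hX
  have hX0 : (0 : ℝ) < X := by exact_mod_cast h2
  rw [Real.div_rpow hX0.le (by norm_num), Real.rpow_sub hX0]
  have h3 := hX₀ X ((le_max_left _ _).trans hX)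
  gcongr

lemma sum_lower (α β : ℝ) (hα : 0 < α) (hα1 : α ≤ 1) (hβ : 0 < β) (hβ1 : β ≤ 1) (hs : 1 < α + β)
    (ε : ℝ) (hε : 0 < ε) : ∃ c₀ : ℕ, ∀ c : ℕ, c₀ ≤ c → ∃ F : Finset (ℕ × ℕ),
      (∀ t ∈ F, OwnS α β c t) ∧ (c : ℝ) ^ (α + β - 1 - ε) ≤ (F.card : ℝ) := by
  classical
  set η : ℝ := min (ε / 2) ((α + β - 1) / 2) with hη
  have hη0 : 0 < η := lt_min (by positivity) (by linarith)
  have hηε : η ≤ ε / 2 := min_le_left _ _
  have hηs : η ≤ (α + β - 1) / 2 := min_le_right _ _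
  obtain ⟨c₁, hc₁, h⟩ := lower η hη0
  obtain ⟨c₂, hc₂, h'⟩ := ev_quarter (α + β) η hη0
  refine ⟨max (max c₁ c₂) 8, fun c hc => ?_⟩
  have hcc₁ : c₁ ≤ c := (le_max_left _ _).trans ((le_max_left _ _).trans hc)
  have hcc₂ : c₂ ≤ c := (le_max_right _ _).trans ((le_max_left _ _).trans hc)
  have hc8 : 8 ≤ c := (le_max_right _ _).trans hc
  have hcR : (8 : ℝ) ≤ c := by exact_mod_cast hc8
  have hc0 : (0 : ℝ) < c := by linarith
  have hq : (0 : ℝ) < (c : ℝ) / 4 := by positivity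
  have hq1 : (1 : ℝ) ≤ (c : ℝ) / 4 := by linarith
  have hle : ∀ δ : ℝ, δ ≤ 1 → ((c : ℝ) / 4) ^ δ ≤ c := by
    intro δ hδ1
    calc ((c : ℝ) / 4) ^ δ ≤ ((c : ℝ) / 4) ^ (1 : ℝ) := Real.rpow_le_rpow_of_exponent_le hq1 hδ1
      _ = (c : ℝ) / 4 := Real.rpow_one _
      _ ≤ c := by linarith
  have hRR : ((c : ℝ) / 4) ^ α * ((c : ℝ) / 4) ^ β = ((c : ℝ) / 4) ^ (α + β) :=
    (Real.rpow_add hq α β).symm
  obtain ⟨G, hG, hGc⟩ := h c hcc₁ c ((c + 3) / 4) (by omega) le_rfl (by omega) (by omega)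
    (((c : ℝ) / 4) ^ α) (((c : ℝ) / 4) ^ β) (by positivity) (hle α hα1) (by positivity) (hle β hβ1)
    (by
      rw [hRR]
      refine le_trans ?_ (h' c hcc₂)
      exact Real.rpow_le_rpow_of_exponent_le (by linarith) (by linarith))
  refine ⟨G.image fun a => (a, c - a), ?_, ?_⟩
  · intro t ht
    obtain ⟨a, ha, rfl⟩ := mem_image.1 ht
    obtain ⟨e1, e2, e3, e4, e5⟩ := hG a ha
    have g1 : c ≤ 4 * a := by omega
    have g2 : a < c := by omega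
    have g3 : c ≤ 4 * (c - a) := by omega
    refine ⟨by show 0 < a; omega, by show 0 < c - a; omega, ?_, by show a + (c - a) = c; omega,
      e4.trans ?_, (e5 (c - a) (by omega) (by omega) (Or.inl (by omega))).trans ?_⟩
    · show Nat.Coprime a (c - a)
      rw [Nat.coprime_sub_self_right g2.le]
      exact e3
    · refine Real.rpow_le_rpow hq.le ?_ hα.le
      have : (c : ℝ) ≤ 4 * a := by exact_mod_cast g1
      show (c : ℝ) / 4 ≤ (a : ℝ)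
      linarith
    · refine Real.rpow_le_rpow hq.le ?_ hβ.le
      have : (c : ℝ) ≤ 4 * ((c - a : ℕ) : ℝ) := by exact_mod_cast g3
      show (c : ℝ) / 4 ≤ ((c - a : ℕ) : ℝ)
      linarith
  · rw [card_image_of_injective _ (fun a b hab => congrArg Prod.fst hab)]
    refine le_trans ?_ hGc
    rw [hRR]
    calc (c : ℝ) ^ (α + β - 1 - ε) ≤ (c : ℝ) ^ (α + β - η - 1 - η) :=
          Real.rpow_le_rpow_of_exponent_le (by linarith) (by linarith)
      _ = (c : ℝ) ^ (α + β - η) / c * ((c : ℝ) ^ η)⁻¹ := by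
          rw [Real.rpow_sub hc0 _ η, Real.rpow_sub hc0 _ 1, Real.rpow_one, div_eq_mul_inv]
      _ ≤ ((c : ℝ) / 4) ^ (α + β) / c * ((c : ℝ) ^ η)⁻¹ := by
          gcongr
          exact h' c hcc₂

lemma diff_lower (β γ : ℝ) (hβ : 0 < β) (hβ1 : β ≤ 1) (hγ : 0 < γ) (hγ1 : γ ≤ 1) (hs : 1 < β + γ)
    (ε : ℝ) (hε : 0 < ε) : ∃ X₀ : ℕ, ∀ X : ℕ, X₀ ≤ X → ∀ k : ℕ, 1 ≤ k → 2 * k ≤ X →
      ∃ F : Finset (ℕ × ℕ), (∀ t ∈ F, OwnD β γ k X t) ∧ (X : ℝ) ^ (β + γ - 1 - ε) ≤ (F.card : ℝ) := by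
  classical
  set η : ℝ := min (ε / 2) ((β + γ - 1) / 2) with hη
  have hη0 : 0 < η := lt_min (by positivity) (by linarith)
  have hηε : η ≤ ε / 2 := min_le_left _ _
  have hηs : η ≤ (β + γ - 1) / 2 := min_le_right _ _
  obtain ⟨c₁, hc₁, h⟩ := lower η hη0
  obtain ⟨c₂, hc₂, h'⟩ := ev_quarter (β + γ) η hη0
  refine ⟨max (max c₁ c₂) 8, fun c hc k hk hkc => ?_⟩
  have hcc₁ : c₁ ≤ c := (le_max_left _ _).trans ((le_max_left _ _).trans hc)
  have hcc₂ : c₂ ≤ c := (le_max_right _ _).trans ((le_max_left _ _).trans hc)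
  have hc8 : 8 ≤ c := (le_max_right _ _).trans hc
  have hcR : (8 : ℝ) ≤ c := by exact_mod_cast hc8
  have hc0 : (0 : ℝ) < c := by linarith
  have hq : (0 : ℝ) < (c : ℝ) / 4 := by positivity
  have hq1 : (1 : ℝ) ≤ (c : ℝ) / 4 := by linarith
  have hle : ∀ δ : ℝ, δ ≤ 1 → ((c : ℝ) / 4) ^ δ ≤ c := by
    intro δ hδ1
    calc ((c : ℝ) / 4) ^ δ ≤ ((c : ℝ) / 4) ^ (1 : ℝ) := Real.rpow_le_rpow_of_exponent_le hq1 hδ1
      _ = (c : ℝ) / 4 := Real.rpow_one _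
      _ ≤ c := by linarith
  have hRR : ((c : ℝ) / 4) ^ γ * ((c : ℝ) / 4) ^ β = ((c : ℝ) / 4) ^ (β + γ) := by
    rw [← Real.rpow_add hq, add_comm]
  obtain ⟨G, hG, hGc⟩ := h c hcc₁ k ((3 * c + 3) / 4) hk (by omega) (by omega) (by omega)
    (((c : ℝ) / 4) ^ γ) (((c : ℝ) / 4) ^ β) (by positivity) (hle γ hγ1) (by positivity) (hle β hβ1)
    (by
      rw [hRR]
      refine le_trans ?_ (h' c hcc₂)
      exact Real.rpow_le_rpow_of_exponent_le (by linarith) (by linarith))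
  have hinj : Set.InjOn (fun a => (a - k, a)) (G : Set ℕ) := fun a _ b _ hab =>
    congrArg Prod.snd hab
  refine ⟨G.image fun a => (a - k, a), ?_, ?_⟩
  · intro t ht
    obtain ⟨a, ha, rfl⟩ := mem_image.1 ht
    obtain ⟨e1, e2, e3, e4, e5⟩ := hG a ha
    have g1 : 3 * c ≤ 4 * a := by omega
    have g2 : a ≤ c := by omega
    have g3 : c ≤ 4 * (a - k) := by omega
    have g4 : k ≤ a := by omega
    refine ⟨by show 0 < a - k; omega, ?_, by show k + (a - k) = a; omega, g2,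
      (e5 (a - k) (by omega) (by omega) (Or.inr (by omega))).trans ?_, e4.trans ?_⟩
    · show Nat.Coprime k (a - k)
      rw [Nat.coprime_sub_self_right g4]
      exact e3.symm
    · refine Real.rpow_le_rpow hq.le ?_ hβ.le
      have : (c : ℝ) ≤ 4 * ((a - k : ℕ) : ℝ) := by exact_mod_cast g3
      show (c : ℝ) / 4 ≤ ((a - k : ℕ) : ℝ)
      linarith
    · refine Real.rpow_le_rpow hq.le ?_ hγ.le
      have : 3 * (c : ℝ) ≤ 4 * a := by exact_mod_cast g1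
      show (c : ℝ) / 4 ≤ (a : ℝ)
      linarith
  · rw [card_image_of_injOn hinj]
    refine le_trans ?_ hGc
    rw [hRR]
    calc (c : ℝ) ^ (β + γ - 1 - ε) ≤ (c : ℝ) ^ (β + γ - η - 1 - η) :=
          Real.rpow_le_rpow_of_exponent_le (by linarith) (by linarith)
      _ = (c : ℝ) ^ (β + γ - η) / c * ((c : ℝ) ^ η)⁻¹ := by
          rw [Real.rpow_sub hc0 _ η, Real.rpow_sub hc0 _ 1, Real.rpow_one, div_eq_mul_inv]
      _ ≤ ((c : ℝ) / 4) ^ (β + γ) / c * ((c : ℝ) ^ η)⁻¹ := by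
          gcongr
          exact h' c hcc₂

/-- the triples of Mazur's question -/
def OwnM (α β γ : ℝ) (X : ℕ) (t : ℕ × ℕ × ℕ) : Prop :=
  0 < t.1 ∧ 0 < t.2.1 ∧ Nat.Coprime t.1 t.2.1 ∧ t.1 + t.2.1 = t.2.2 ∧ t.2.2 ≤ X ∧
    (rad t.1 : ℝ) ≤ (t.1 : ℝ) ^ α ∧ (rad t.2.1 : ℝ) ≤ (t.2.1 : ℝ) ^ β ∧
    (rad t.2.2 : ℝ) ≤ (t.2.2 : ℝ) ^ γ

/-- summation over the third member -/
lemma sum_third {δ : ℝ} (hδ : 0 ≤ δ) {X : ℕ} {B D : ℝ} (f : ℕ × ℕ × ℕ → ℕ)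
    (F : Finset (ℕ × ℕ × ℕ)) (hB : 0 ≤ B)
    (h0 : ∀ t ∈ F, 1 ≤ f t ∧ f t ≤ X ∧ (rad (f t) : ℝ) ≤ (f t : ℝ) ^ δ)
    (h1 : ∀ k : ℕ, 1 ≤ k → k ≤ X → ((F.filter fun t => f t = k).card : ℝ) ≤ B)
    (h2 : (((Icc 1 X).filter fun d => (rad d : ℝ) ≤ (X : ℝ) ^ δ).card : ℝ) ≤ D) :
    (F.card : ℝ) ≤ D * B := by
  classical
  have hmaps : ∀ t ∈ F, f t ∈ (Icc 1 X).filter fun d => (rad d : ℝ) ≤ (X : ℝ) ^ δ := by
    intro t ht
    obtain ⟨e1, e2, e3⟩ := h0 t ht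
    refine mem_filter.2 ⟨mem_Icc.2 ⟨e1, e2⟩, e3.trans ?_⟩
    exact Real.rpow_le_rpow (Nat.cast_nonneg _) (by exact_mod_cast e2) hδ
  rw [card_eq_sum_card_fiberwise hmaps, Nat.cast_sum]
  calc ∑ k ∈ (Icc 1 X).filter (fun d => (rad d : ℝ) ≤ (X : ℝ) ^ δ),
        ((F.filter fun t => f t = k).card : ℝ)
      ≤ ∑ k ∈ (Icc 1 X).filter (fun d => (rad d : ℝ) ≤ (X : ℝ) ^ δ), B := by
        refine sum_le_sum fun k hk => ?_
        obtain ⟨g1, _⟩ := mem_filter.1 hk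
        rw [mem_Icc] at g1
        exact h1 k g1.1 g1.2
    _ = (((Icc 1 X).filter fun d => (rad d : ℝ) ≤ (X : ℝ) ^ δ).card : ℝ) * B := by
        rw [sum_const, nsmul_eq_mul]
    _ ≤ D * B := by gcongr

/-- the upper bound if the first two exponents have sum at least `5 / 3` -/
lemma mazur_upper₁ (α β γ : ℝ) (hα : 0 < α) (hβ : 0 < β) (hγ : 0 < γ) (hs : 5 / 3 ≤ α + β)
    (ε : ℝ) (hε : 0 < ε) : ∃ K : ℝ, 0 < K ∧ ∀ X : ℕ, 1 ≤ X → ∀ F : Finset (ℕ × ℕ × ℕ),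
      (∀ t ∈ F, OwnM α β γ X t) → (F.card : ℝ) ≤ K * (X : ℝ) ^ (α + β + γ - 1 + ε) := by
  classical
  obtain ⟨K, hK, h⟩ := sum_upper α β hα hβ hs (ε / 2) (by positivity)
  obtain ⟨D, hD, h'⟩ := stmtA4_of (stmtA3_of stmtA2) (ε / 2) (by positivity)
  refine ⟨D * K, by positivity, fun X hX F hF => ?_⟩
  have hX1 : (1 : ℝ) ≤ X := by exact_mod_cast hX
  have hX0 : (0 : ℝ) < X := by linarith
  have h1 := sum_third hγ.le (X := X) (B := K * (X : ℝ) ^ (α + β - 1 + ε / 2))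
    (D := D * (X : ℝ) ^ (ε / 2) * (X : ℝ) ^ γ) (fun t => t.2.2) F (by positivity)
    (by
      intro t ht
      obtain ⟨e1, e2, e3, e4, e5, e6, e7, e8⟩ := hF t ht
      exact ⟨by show 1 ≤ t.2.2; omega, e5, e8⟩)
    (by
      intro k hk hkX
      have hcard : (F.filter fun t => t.2.2 = k).card =
          ((F.filter fun t => t.2.2 = k).image fun t => (t.1, t.2.1)).card := by
        refine (card_image_of_injOn ?_).symm
        intro t ht t' ht' heq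
        have g1 := (mem_filter.1 ht).2
        have g2 := (mem_filter.1 ht').2
        simp only [Prod.mk.injEq] at heq
        obtain ⟨g3, g4⟩ := heq
        exact Prod.ext g3 (Prod.ext g4 (g1.trans g2.symm))
      have g5 := h k hk ((F.filter fun t => t.2.2 = k).image fun t => (t.1, t.2.1)) (by
        intro t' ht'
        obtain ⟨t, ht, rfl⟩ := mem_image.1 ht'
        obtain ⟨g1, g2⟩ := mem_filter.1 ht
        obtain ⟨e1, e2, e3, e4, e5, e6, e7, e8⟩ := hF t g1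
        exact ⟨e1, e2, e3, e4.trans g2, e6, e7⟩)
      rw [← hcard] at g5
      refine g5.trans ?_
      gcongr
      linarith)
    (h' X hX _ (by positivity))
  refine h1.trans (le_of_eq ?_)
  have h2 : α + β + γ - 1 + ε = (α + β - 1 + ε / 2) + (ε / 2 + γ) := by ring
  rw [h2, Real.rpow_add hX0 (α + β - 1 + ε / 2), Real.rpow_add hX0 (ε / 2)]
  ring

/-- the upper bound if the last two exponents have sum at least `5 / 3` -/
lemma mazur_upper₂ (α β γ : ℝ) (hα : 0 < α) (hβ : 0 < β) (hγ : 0 < γ) (hs : 5 / 3 ≤ β + γ)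
    (ε : ℝ) (hε : 0 < ε) : ∃ K : ℝ, 0 < K ∧ ∀ X : ℕ, 1 ≤ X → ∀ F : Finset (ℕ × ℕ × ℕ),
      (∀ t ∈ F, OwnM α β γ X t) → (F.card : ℝ) ≤ K * (X : ℝ) ^ (α + β + γ - 1 + ε) := by
  classical
  obtain ⟨K, hK, h⟩ := diff_upper β γ hβ hγ hs (ε / 2) (by positivity)
  obtain ⟨D, hD, h'⟩ := stmtA4_of (stmtA3_of stmtA2) (ε / 2) (by positivity)
  refine ⟨D * K, by positivity, fun X hX F hF => ?_⟩
  have hX1 : (1 : ℝ) ≤ X := by exact_mod_cast hX
  have hX0 : (0 : ℝ) < X := by linarith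
  have h1 := sum_third hα.le (X := X) (B := K * (X : ℝ) ^ (β + γ - 1 + ε / 2))
    (D := D * (X : ℝ) ^ (ε / 2) * (X : ℝ) ^ α) (fun t => t.1) F (by positivity)
    (by
      intro t ht
      obtain ⟨e1, e2, e3, e4, e5, e6, e7, e8⟩ := hF t ht
      exact ⟨e1, by show t.1 ≤ X; omega, e6⟩)
    (by
      intro k hk hkX
      have hcard : (F.filter fun t => t.1 = k).card =
          ((F.filter fun t => t.1 = k).image fun t => t.2).card := by
        refine (card_image_of_injOn ?_).symm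
        intro t ht t' ht' heq
        have g1 := (mem_filter.1 ht).2
        have g2 := (mem_filter.1 ht').2
        exact Prod.ext (g1.trans g2.symm) heq
      have g5 := h X hX k ((F.filter fun t => t.1 = k).image fun t => t.2) (by
        intro t' ht'
        obtain ⟨t, ht, rfl⟩ := mem_image.1 ht'
        obtain ⟨g1, g2⟩ := mem_filter.1 ht
        obtain ⟨e1, e2, e3, e4, e5, e6, e7, e8⟩ := hF t g1
        rw [← g2]
        exact ⟨e2, e3, e4, e5, e7, e8⟩)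
      rw [← hcard] at g5
      exact g5)
    (h' X hX _ (by positivity))
  refine h1.trans (le_of_eq ?_)
  have h2 : α + β + γ - 1 + ε = (β + γ - 1 + ε / 2) + (ε / 2 + α) := by ring
  rw [h2, Real.rpow_add hX0 (β + γ - 1 + ε / 2), Real.rpow_add hX0 (ε / 2)]
  ring

lemma own_swap {α β γ : ℝ} {X : ℕ} {t : ℕ × ℕ × ℕ} (h : OwnM α β γ X t) :
    OwnM β α γ X (t.2.1, t.1, t.2.2) := by
  obtain ⟨e1, e2, e3, e4, e5, e6, e7, e8⟩ := h
  exact ⟨e2, e1, e3.symm, by show t.2.1 + t.1 = t.2.2; omega, e5, e7, e6, e8⟩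

/-- the upper bound if two of the exponents have sum at least `5 / 3` -/
lemma mazur_upper (α β γ : ℝ) (hα : 0 < α) (hβ : 0 < β) (hγ : 0 < γ)
    (hs : 5 / 3 ≤ α + β ∨ 5 / 3 ≤ β + γ ∨ 5 / 3 ≤ α + γ)
    (ε : ℝ) (hε : 0 < ε) : ∃ K : ℝ, 0 < K ∧ ∀ X : ℕ, 1 ≤ X → ∀ F : Finset (ℕ × ℕ × ℕ),
      (∀ t ∈ F, OwnM α β γ X t) → (F.card : ℝ) ≤ K * (X : ℝ) ^ (α + β + γ - 1 + ε) := by
  classical
  rcases hs with h | h | h
  · exact mazur_upper₁ α β γ hα hβ hγ h ε hε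
  · exact mazur_upper₂ α β γ hα hβ hγ h ε hε
  · obtain ⟨K, hK, g⟩ := mazur_upper₂ β α γ hβ hα hγ h ε hε
    refine ⟨K, hK, fun X hX F hF => ?_⟩
    have hinj : Function.Injective (fun t : ℕ × ℕ × ℕ => (t.2.1, t.1, t.2.2)) := by
      rintro ⟨a, b, c⟩ ⟨a', b', c'⟩ h
      simp only [Prod.mk.injEq] at h ⊢
      exact ⟨h.2.1, h.1, h.2.2⟩
    have g1 := g X hX (F.image fun t : ℕ × ℕ × ℕ => (t.2.1, t.1, t.2.2)) (by
      intro t' ht'
      obtain ⟨t, ht, rfl⟩ := mem_image.1 ht'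
      exact own_swap (hF t ht))
    rw [card_image_of_injective _ hinj] at g1
    have g2 : β + α + γ - 1 + ε = α + β + γ - 1 + ε := by ring
    rwa [g2] at g1

/-- a numerical fact -/
lemma ev_eighth (s ε : ℝ) (hε : 0 < ε) :
    ∃ X₀ : ℕ, 1 ≤ X₀ ∧ ∀ X : ℕ, X₀ ≤ X → (X : ℝ) ^ (s - ε) ≤ ((X : ℝ) / 8) ^ s := by
  have h1 : Tendsto (fun Y : ℕ => (Y : ℝ) ^ ε) atTop atTop :=
    (tendsto_rpow_atTop hε).comp tendsto_natCast_atTop_atTop
  obtain ⟨X₀, hX₀⟩ := eventually_atTop.1 (h1.eventually_ge_atTop ((8 : ℝ) ^ s))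
  refine ⟨max X₀ 1, le_max_right _ _, fun X hX => ?_⟩
  have h2 : 1 ≤ X := (le_max_right _ _).trans hX
  have hX0 : (0 : ℝ) < X := by exact_mod_cast h2
  rw [Real.div_rpow hX0.le (by norm_num), Real.rpow_sub hX0]
  have h3 := hX₀ X ((le_max_left _ _).trans hX)
  gcongr

/-- the lower bound, by summation over the largest member -/
lemma mazur_lower₁ (α β γ : ℝ) (hα : 0 < α) (hα1 : α ≤ 1) (hβ : 0 < β) (hβ1 : β ≤ 1) (hγ : 0 < γ)
    (hγ1 : γ ≤ 1) (hs : 1 < α + β) (ε : ℝ) (hε : 0 < ε) : ∃ X₀ : ℕ, ∀ X : ℕ, X₀ ≤ X →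
      ∃ F : Finset (ℕ × ℕ × ℕ), (∀ t ∈ F, OwnM α β γ X t) ∧
        (X : ℝ) ^ (α + β + γ - 1 - ε) ≤ (F.card : ℝ) := by
  classical
  set η : ℝ := min (ε / 4) (min (α + β - 1) γ) with hη
  have hη0 : 0 < η := lt_min (by positivity) (lt_min (by linarith) hγ)
  have hηε : η ≤ ε / 4 := min_le_left _ _
  have hηs : η ≤ α + β - 1 := (min_le_right _ _).trans (min_le_left _ _)
  have hηγ : η ≤ γ := (min_le_right _ _).trans (min_le_right _ _)
  obtain ⟨c₁, h⟩ := sum_lower α β hα hα1 hβ hβ1 hs η hη0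
  obtain ⟨Y₁, h'⟩ := many γ η hγ hγ1 hη0
  obtain ⟨X₁, hX₁, h''⟩ := ev_eighth (α + β + γ - 1 - 2 * η) η hη0
  refine ⟨max (max (2 * c₁ + 2) (2 * Y₁ + 2)) (max X₁ 8), fun X hX => ?_⟩
  simp only [max_le_iff] at hX
  obtain ⟨⟨k1, k2⟩, k3, k4⟩ := hX
  set Y : ℕ := X / 2 with hY
  have hYc : c₁ ≤ Y := by omega
  have hYY : Y₁ ≤ Y := by omega
  have hXR : (8 : ℝ) ≤ X := by exact_mod_cast k4
  have hYR : (X : ℝ) / 8 ≤ Y := by
    have g1 : X ≤ 8 * Y := by omega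
    have g2 : (X : ℝ) ≤ 8 * Y := by exact_mod_cast g1
    linarith
  have hY0 : (0 : ℝ) < Y := by linarith
  have hcard := h' Y hYY
  set C : Finset ℕ := (Ioc Y (2 * Y)).filter fun m => (rad m : ℝ) ≤ (m : ℝ) ^ γ with hC
  have hex : ∀ c : ℕ, ∃ F : Finset (ℕ × ℕ), c ∈ C → ((∀ t ∈ F, OwnS α β c t) ∧
      (Y : ℝ) ^ (α + β - 1 - η) ≤ (F.card : ℝ)) := by
    intro c
    by_cases hc : c ∈ C
    · have g1 := (mem_filter.1 hc).1
      rw [mem_Ioc] at g1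
      obtain ⟨F, hF1, hF2⟩ := h c (by omega)
      refine ⟨F, fun _ => ⟨hF1, le_trans ?_ hF2⟩⟩
      exact Real.rpow_le_rpow hY0.le (by exact_mod_cast g1.1.le) (by linarith)
    · exact ⟨∅, fun h => absurd h hc⟩
  choose F hF using hex
  set T : Finset (ℕ × ℕ × ℕ) := C.biUnion fun c => (F c).image fun t => (t.1, t.2, c) with hT
  refine ⟨T, ?_, ?_⟩
  · intro t ht
    obtain ⟨c, hc, ht'⟩ := mem_biUnion.1 ht
    obtain ⟨t', ht'', rfl⟩ := mem_image.1 ht'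
    obtain ⟨e1, e2, e3, e4, e5, e6⟩ := (hF c hc).1 t' ht''
    obtain ⟨g1, g2⟩ := mem_filter.1 hc
    rw [mem_Ioc] at g1
    exact ⟨e1, e2, e3, e4, by show c ≤ X; omega, e5, e6, g2⟩
  · have hdisj : ∀ c ∈ C, ∀ c' ∈ C, c ≠ c' → Disjoint ((F c).image fun t => (t.1, t.2, c))
        ((F c').image fun t => (t.1, t.2, c')) := by
      intro c _ c' _ hcc
      rw [disjoint_left]
      intro t ht ht'
      obtain ⟨u, _, hu⟩ := mem_image.1 ht
      obtain ⟨u', _, hu'⟩ := mem_image.1 ht'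
      apply hcc
      have := congrArg (fun q : ℕ × ℕ × ℕ => q.2.2) (hu.trans hu'.symm)
      exact this
    have hTc : (T.card : ℝ) = ∑ c ∈ C, ((F c).card : ℝ) := by
      rw [hT, card_biUnion hdisj, Nat.cast_sum]
      refine sum_congr rfl fun c _ => ?_
      rw [card_image_of_injective]
      intro t t' h
      simp only [Prod.mk.injEq] at h
      exact Prod.ext h.1 h.2.1
    have h1 : (C.card : ℝ) * (Y : ℝ) ^ (α + β - 1 - η) ≤ T.card := by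
      rw [hTc, ← nsmul_eq_mul, ← sum_const]
      exact sum_le_sum fun c hc => (hF c hc).2
    have h2 : (X : ℝ) ^ (α + β + γ - 1 - 2 * η - η) ≤ (Y : ℝ) ^ (α + β + γ - 1 - 2 * η) :=
      (h'' X k3).trans (Real.rpow_le_rpow (by positivity) hYR (by linarith))
    calc (X : ℝ) ^ (α + β + γ - 1 - ε) ≤ (X : ℝ) ^ (α + β + γ - 1 - 2 * η - η) :=
          Real.rpow_le_rpow_of_exponent_le (by linarith) (by linarith)
      _ ≤ (Y : ℝ) ^ (α + β + γ - 1 - 2 * η) := h2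
      _ = (Y : ℝ) ^ (γ - η) * (Y : ℝ) ^ (α + β - 1 - η) := by
          rw [← Real.rpow_add hY0]
          congr 1
          ring
      _ ≤ C.card * (Y : ℝ) ^ (α + β - 1 - η) := by gcongr
      _ ≤ T.card := h1

/-- the lower bound, by summation over the first member -/
lemma mazur_lower₂ (α β γ : ℝ) (hα : 0 < α) (hα1 : α ≤ 1) (hβ : 0 < β) (hβ1 : β ≤ 1) (hγ : 0 < γ)
    (hγ1 : γ ≤ 1) (hs : 1 < β + γ) (ε : ℝ) (hε : 0 < ε) : ∃ X₀ : ℕ, ∀ X : ℕ, X₀ ≤ X →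
      ∃ F : Finset (ℕ × ℕ × ℕ), (∀ t ∈ F, OwnM α β γ X t) ∧
        (X : ℝ) ^ (α + β + γ - 1 - ε) ≤ (F.card : ℝ) := by
  classical
  set η : ℝ := min (ε / 4) (min (β + γ - 1) α) with hη
  have hη0 : 0 < η := lt_min (by positivity) (lt_min (by linarith) hα)
  have hηε : η ≤ ε / 4 := min_le_left _ _
  have hηs : η ≤ β + γ - 1 := (min_le_right _ _).trans (min_le_left _ _)
  have hηα : η ≤ α := (min_le_right _ _).trans (min_le_right _ _)
  obtain ⟨c₁, h⟩ := diff_lower β γ hβ hβ1 hγ hγ1 hs η hη0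
  obtain ⟨Y₁, h'⟩ := many α η hα hα1 hη0
  obtain ⟨X₁, hX₁, h''⟩ := ev_eighth (α + β + γ - 1 - 2 * η) η hη0
  refine ⟨max (max c₁ (4 * Y₁ + 4)) (max X₁ 8), fun X hX => ?_⟩
  simp only [max_le_iff] at hX
  obtain ⟨⟨k1, k2⟩, k3, k4⟩ := hX
  set Y : ℕ := X / 4 with hY
  have hYY : Y₁ ≤ Y := by omega
  have hXR : (8 : ℝ) ≤ X := by exact_mod_cast k4
  have hYR : (X : ℝ) / 8 ≤ Y := by
    have g1 : X ≤ 8 * Y := by omega
    have g2 : (X : ℝ) ≤ 8 * Y := by exact_mod_cast g1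
    linarith
  have hY0 : (0 : ℝ) < Y := by linarith
  have hYX : (Y : ℝ) ≤ X := by
    have : Y ≤ X := by omega
    exact_mod_cast this
  have hcard := h' Y hYY
  set C : Finset ℕ := (Ioc Y (2 * Y)).filter fun m => (rad m : ℝ) ≤ (m : ℝ) ^ α with hC
  have hex : ∀ c : ℕ, ∃ F : Finset (ℕ × ℕ), c ∈ C → ((∀ t ∈ F, OwnD β γ c X t) ∧
      (Y : ℝ) ^ (β + γ - 1 - η) ≤ (F.card : ℝ)) := by
    intro c
    by_cases hc : c ∈ C
    · have g1 := (mem_filter.1 hc).1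
      rw [mem_Ioc] at g1
      obtain ⟨F, hF1, hF2⟩ := h X k1 c (by omega) (by omega)
      refine ⟨F, fun _ => ⟨hF1, le_trans ?_ hF2⟩⟩
      exact Real.rpow_le_rpow hY0.le hYX (by linarith)
    · exact ⟨∅, fun h => absurd h hc⟩
  choose F hF using hex
  set T : Finset (ℕ × ℕ × ℕ) := C.biUnion fun c => (F c).image fun t => (c, t) with hT
  refine ⟨T, ?_, ?_⟩
  · intro t ht
    obtain ⟨c, hc, ht'⟩ := mem_biUnion.1 ht
    obtain ⟨t', ht'', rfl⟩ := mem_image.1 ht'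
    obtain ⟨e1, e2, e3, e4, e5, e6⟩ := (hF c hc).1 t' ht''
    obtain ⟨g1, g2⟩ := mem_filter.1 hc
    rw [mem_Ioc] at g1
    exact ⟨by show 0 < c; omega, e1, e2, e3, e4, g2, e5, e6⟩
  · have hdisj : ∀ c ∈ C, ∀ c' ∈ C, c ≠ c' → Disjoint ((F c).image fun t => (c, t))
        ((F c').image fun t => (c', t)) := by
      intro c _ c' _ hcc
      rw [disjoint_left]
      intro t ht ht'
      obtain ⟨u, _, hu⟩ := mem_image.1 ht
      obtain ⟨u', _, hu'⟩ := mem_image.1 ht'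
      apply hcc
      have := congrArg (fun q : ℕ × ℕ × ℕ => q.1) (hu.trans hu'.symm)
      exact this
    have hTc : (T.card : ℝ) = ∑ c ∈ C, ((F c).card : ℝ) := by
      rw [hT, card_biUnion hdisj, Nat.cast_sum]
      refine sum_congr rfl fun c _ => ?_
      rw [card_image_of_injective]
      intro t t' h
      simp only [Prod.mk.injEq] at h
      exact h.2
    have h1 : (C.card : ℝ) * (Y : ℝ) ^ (β + γ - 1 - η) ≤ T.card := by
      rw [hTc, ← nsmul_eq_mul, ← sum_const]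
      exact sum_le_sum fun c hc => (hF c hc).2
    have h2 : (X : ℝ) ^ (α + β + γ - 1 - 2 * η - η) ≤ (Y : ℝ) ^ (α + β + γ - 1 - 2 * η) :=
      (h'' X k3).trans (Real.rpow_le_rpow (by positivity) hYR (by linarith))
    calc (X : ℝ) ^ (α + β + γ - 1 - ε) ≤ (X : ℝ) ^ (α + β + γ - 1 - 2 * η - η) :=
          Real.rpow_le_rpow_of_exponent_le (by linarith) (by linarith)
      _ ≤ (Y : ℝ) ^ (α + β + γ - 1 - 2 * η) := h2
      _ = (Y : ℝ) ^ (α - η) * (Y : ℝ) ^ (β + γ - 1 - η) := by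
          rw [← Real.rpow_add hY0]
          congr 1
          ring
      _ ≤ C.card * (Y : ℝ) ^ (β + γ - 1 - η) := by gcongr
      _ ≤ T.card := h1

/-- the lower bound if two of the exponents have sum greater than `1` -/
lemma mazur_lower (α β γ : ℝ) (hα : 0 < α) (hα1 : α ≤ 1) (hβ : 0 < β) (hβ1 : β ≤ 1) (hγ : 0 < γ)
    (hγ1 : γ ≤ 1) (hs : 1 < α + β ∨ 1 < β + γ ∨ 1 < α + γ)
    (ε : ℝ) (hε : 0 < ε) : ∃ X₀ : ℕ, ∀ X : ℕ, X₀ ≤ X →
      ∃ F : Finset (ℕ × ℕ × ℕ), (∀ t ∈ F, OwnM α β γ X t) ∧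
        (X : ℝ) ^ (α + β + γ - 1 - ε) ≤ (F.card : ℝ) := by
  classical
  rcases hs with h | h | h
  · exact mazur_lower₁ α β γ hα hα1 hβ hβ1 hγ hγ1 h ε hε
  · exact mazur_lower₂ α β γ hα hα1 hβ hβ1 hγ hγ1 h ε hε
  · obtain ⟨X₀, g⟩ := mazur_lower₂ β α γ hβ hβ1 hα hα1 hγ hγ1 h ε hε
    refine ⟨X₀, fun X hX => ?_⟩
    obtain ⟨F, hF, hFc⟩ := g X hX
    have hinj : Function.Injective (fun t : ℕ × ℕ × ℕ => (t.2.1, t.1, t.2.2)) := by
      rintro ⟨a, b, c⟩ ⟨a', b', c'⟩ h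
      simp only [Prod.mk.injEq] at h ⊢
      exact ⟨h.2.1, h.1, h.2.2⟩
    refine ⟨F.image fun t : ℕ × ℕ × ℕ => (t.2.1, t.1, t.2.2), ?_, ?_⟩
    · intro t' ht'
      obtain ⟨t, ht, rfl⟩ := mem_image.1 ht'
      exact own_swap (hF t ht)
    · rw [card_image_of_injective _ hinj]
      have g2 : α + β + γ - 1 - ε = β + α + γ - 1 - ε := by ring
      rw [g2]
      exact hFc

end Pool.Agent.H584.Maz
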